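import Pool.Agent.Lib_helper68.MC.DefsC

/-! Project MC (MP_b08f5f_an, microcanonical), identification of the limit: definitions. -/

set_option autoImplicit false

namespace Pool.Agent.Lib_helper68.MC

open MeasureTheory Filter Topology Set
open scoped ComplexConjugate ENNReal NNReal
open Pool.Agent.Lib_helper25.PV (Conf vel Motion centre inertia NC VFlow)
open Pool.Agent.Lib_helper12.HE (ham rad nrm Gam sig shell turn one LimAvg)

noncomputable section

/-- `ρ` is the equilibrium density of energy `e` -/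
structure Eqm (e : ℝ) (ρ : ℂ → ℝ) : Prop where
  dens : Dens ρ
  mo_eq : mo ρ = 1
  mean_eq : mean ρ = 0
  en_eq : En ρ ρ = e
  radial : ∀ α : ℂ, ‖α‖ = 1 → ∀ x, ρ (α * x) = ρ x
  best : ∀ ρ' : ℂ → ℝ, Dens ρ' → mo ρ' ≤ 1 → En ρ' ρ' ≤ e → ¬ ρ' =ᵐ[volume] ρ →
    Sent ρ' - 8 * Real.pi * (e - En ρ' ρ') < Sent ρ

/-- the distribution of the vortices is not `ε`-close to `ρ` -/
def Off {N : ℕ} (ρ : ℂ → ℝ) (ε : ℝ) (y : Conf N) : Prop :=
  ∃ Φ : ℂ → ℝ, LipschitzWith 1 Φ ∧ ε < |one N Φ y - ∫ x, Φ x * ρ x|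

/-- some test function of the list sees the difference -/
def Bc {N : ℕ} (F : Finset ((ℂ → ℝ) × ℝ)) (ε : ℝ) (y : Conf N) : Prop :=
  ∃ p ∈ F, ε ≤ |one N p.1 y - p.2|

/-- densities on the half line, variable `v = π |x|²` -/
structure Den1 (g : ℝ → ℝ) : Prop where
  meas : Measurable g
  nonneg : ∀ v, 0 ≤ g v
  zero : ∀ v ≤ 0, g v = 0
  int : Integrable g
  one : ∫ v, g v = 1
  ent : Integrable fun v => g v * Real.log (g v)
  mom : Integrable fun v => v * g v

/-- entropy on the half line -/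
def S1 (g : ℝ → ℝ) : ℝ := -∫ v, g v * Real.log (g v)

/-- logarithmic energy on the half line -/
def L1 (g : ℝ → ℝ) : ℝ := ∫ p : ℝ × ℝ, Real.log (max p.1 p.2) * (g p.1 * g p.2)

/-- the radial density in the plane -/
def lif (g : ℝ → ℝ) : ℂ → ℝ := fun x => g (Real.pi * ‖x‖ ^ 2)

end

end Pool.Agent.Lib_helper68.MC
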