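import Pool.Agent.Lib_helper68.MC.DefsC
import Pool.Agent.Lib_helper40.MC.VM
import Pool.Agent.Lib_helper31.MC.LBF
import Pool.Agent.Lib_helper12.MC.UL
import Pool.Agent.Lib_helper12.MC.SR
import Pool.Agent.Lib_helper58.MC.WD
import Pool.Agent.Lib_helper92.MC.NT
import Pool.Agent.Lib_helper75.MC.TO

/-! Project MC (MP_b08f5f_an, microcanonical), block ST: the static theorem. -/

set_option autoImplicit false

namespace Pool.Agent.Lib_helper68.MC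

open MeasureTheory Filter Topology Set
open scoped ComplexConjugate ENNReal NNReal
open Pool.Agent.Lib_helper25.PV (Conf vel Motion centre inertia NC VFlow)
open Pool.Agent.Lib_helper12.HE (ham rad nrm Gam sig shell turn one LimAvg)

noncomputable section

/-- the quotient of an upper and a lower bound -/
theorem ST_ratio {a b : ℝ} {ρ : ℂ → ℝ} (h : Dens ρ) (hm : mo ρ = 1) (hc : mean ρ = 0)
    (ha : a < En ρ ρ) (hb : En ρ ρ < b) {σ : ℝ} (hσ : σ < Sent ρ)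
    {U : Set (ProbabilityMeasure ℂ)} {η : ℝ} (hη : 0 < η)
    (hU : ∀ᶠ N : ℕ in atTop,
      volume {z : Conf N | z ∈ Reg N η ∧ nrm z ∈ Win N a b ∧ emp (nrm z) ∈ U} ≤
        ENNReal.ofReal (Real.exp (N * σ))) :
    ∃ c > 0, ∀ᶠ N : ℕ in atTop, sig N {y | y ∈ Win N a b ∧ emp y ∈ U} ≤
      ENNReal.ofReal (Real.exp (-(c * N))) * sig N (Win N a b) := by
  have hd : 0 < (Sent ρ - σ) / 2 := by linarith
  refine ⟨(Sent ρ - σ) / 2, hd, ?_⟩
  filter_upwards [hU, LB_main h hm hc ha hb hη hd, eventually_ge_atTop 2] with N h1 h2 h3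
  obtain ⟨κ, k0, kt, hk⟩ := SR_region N h3 η hη
  have e1 : volume {z : Conf N | z ∈ Reg N η ∧ nrm z ∈ Win N a b ∧ emp (nrm z) ∈ U} =
      κ * sig N {y | y ∈ Win N a b ∧ emp y ∈ U} := hk {y | y ∈ Win N a b ∧ emp y ∈ U}
  rw [e1] at h1
  rw [hk] at h2
  have h4 : κ * sig N {y | y ∈ Win N a b ∧ emp y ∈ U} ≤
      κ * (ENNReal.ofReal (Real.exp (-((Sent ρ - σ) / 2 * N))) * sig N (Win N a b)) := by
    calc κ * sig N {y | y ∈ Win N a b ∧ emp y ∈ U} ≤ ENNReal.ofReal (Real.exp (N * σ)) := h1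
      _ = ENNReal.ofReal (Real.exp (-((Sent ρ - σ) / 2 * N))) *
          ENNReal.ofReal (Real.exp (N * (Sent ρ - (Sent ρ - σ) / 2))) := by
        rw [← ENNReal.ofReal_mul (Real.exp_pos _).le, ← Real.exp_add]
        congr 2
        ring
      _ ≤ ENNReal.ofReal (Real.exp (-((Sent ρ - σ) / 2 * N))) * (κ * sig N (Win N a b)) := by
        gcongr
      _ = κ * (ENNReal.ofReal (Real.exp (-((Sent ρ - σ) / 2 * N))) * sig N (Win N a b)) := by
        ring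
  exact (ENNReal.mul_le_mul_iff_right k0 kt).1 h4

/-- the local estimate near a measure that is not invariant under the rotations -/
theorem ST_local {a b : ℝ} (hab : a < b) (hb : e0 < b) {μ : ProbabilityMeasure ℂ} (hμ : μ ∈ KK)
    {f : ℂ → ℝ} (hf : Continuous f) (hfb : ∃ C, ∀ x, |f x| ≤ C) {θ : ℝ}
    (hne : ∫ x, f (Complex.exp (θ * Complex.I) * x) ∂(μ : Measure ℂ) ≠
      ∫ x, f x ∂(μ : Measure ℂ)) :
    ∃ U : Set (ProbabilityMeasure ℂ), IsOpen U ∧ μ ∈ U ∧ ∃ c > 0, ∀ᶠ N : ℕ in atTop,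
      sig N {y | y ∈ Win N a b ∧ emp y ∈ U} ≤
        ENNReal.ofReal (Real.exp (-(c * N))) * sig N (Win N a b) := by
  by_cases hc : ∫ x, x ∂(μ : Measure ℂ) = 0
  · by_cases hd : ∃ ρ, Dens ρ ∧ (μ : Measure ℂ) = wd ρ ∧ En ρ ρ ≤ b
    · obtain ⟨ρ, h, e, hE⟩ := hd
      have hm : mo ρ ≤ 1 := WD_mo h (by rw [← e]; exact hμ)
      have hc' : mean ρ = 0 := by rw [← WD_mean h, ← e]; exact hc
      have hr := WD_rot h hf hfb (θ := θ) (by rw [← e]; exact hne)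
      obtain ⟨ρ', g1, g2, g3, g4, g5, g6⟩ := VM_main hab hb h hm hc' hE hr
      obtain ⟨U, hU, hμU, η, hη, hU'⟩ := UL_main (a := a) (b := b) hμ
        (σ := (Sent ρ - 8 * Real.pi * max (a - En ρ ρ) 0 + Sent ρ') / 2)
        (Or.inl ⟨ρ, h, e, fun _ => by linarith⟩)
      exact ⟨U, hU, hμU, ST_ratio g1 g2 g3 g4 g5 (by linarith) hη hU'⟩
    · obtain ⟨ρ', g1, g2, g3, g4, g5⟩ := VM_some hab hb
      have key : (∃ ρ, Dens ρ ∧ (μ : Measure ℂ) = wd ρ ∧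
          (En ρ ρ ≤ b → Sent ρ - 8 * Real.pi * max (a - En ρ ρ) 0 < Sent ρ' - 1)) ∨
          ¬ ∃ ρ, Dens ρ ∧ (μ : Measure ℂ) = wd ρ := by
        by_cases hd' : ∃ ρ, Dens ρ ∧ (μ : Measure ℂ) = wd ρ
        · obtain ⟨ρ, h, e⟩ := hd'
          exact Or.inl ⟨ρ, h, e, fun hE => absurd ⟨ρ, h, e, hE⟩ hd⟩
        · exact Or.inr hd'
      obtain ⟨U, hU, hμU, η, hη, hU'⟩ := UL_main (a := a) (b := b) hμ key
      exact ⟨U, hU, hμU, ST_ratio g1 g2 g3 g4 g5 (by linarith) hη hU'⟩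
  · obtain ⟨U, hU, hμU, h⟩ := TO_centre hμ hc
    refine ⟨U, hU, hμU, 1, one_pos, ?_⟩
    filter_upwards [eventually_ge_atTop 1] with N hN
    have e : {y : Conf N | y ∈ Win N a b ∧ emp y ∈ U} = ∅ := by
      ext y
      simp only [mem_ofPred_eq, mem_empty_iff_false, iff_false, not_and]
      intro hy
      exact h N hN y hy.1
    rw [e]
    simp [sig]

/-- the measures that the test functions distinguish from their rotations -/
def ST_C (F : Finset ((ℂ → ℝ) × ℝ)) (ε : ℝ) : Set (ProbabilityMeasure ℂ) :=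
  {μ | μ ∈ KK ∧ ∃ p ∈ F, ε ≤ |(∫ x, p.1 (Complex.exp (p.2 * Complex.I) * x) ∂(μ : Measure ℂ)) -
        ∫ x, p.1 x ∂(μ : Measure ℂ)|}

theorem ST_cont {f : ℂ → ℝ} (hf : Continuous f) (hfb : ∃ C, ∀ x, |f x| ≤ C) :
    Continuous fun μ : ProbabilityMeasure ℂ => ∫ x, f x ∂(μ : Measure ℂ) := by
  obtain ⟨C, hC⟩ := hfb
  exact ProbabilityMeasure.continuous_integral_boundedContinuousFunction
    (BoundedContinuousFunction.ofNormedAddCommGroup f hf C hC)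

theorem ST_compact {F : Finset ((ℂ → ℝ) × ℝ)}
    (hF : ∀ p ∈ F, Continuous p.1 ∧ ∃ C, ∀ x, |p.1 x| ≤ C) (ε : ℝ) : IsCompact (ST_C F ε) := by
  have : ST_C F ε = KK ∩ ⋃ p ∈ F, {μ : ProbabilityMeasure ℂ |
      ε ≤ |(∫ x, p.1 (Complex.exp (p.2 * Complex.I) * x) ∂(μ : Measure ℂ)) -
        ∫ x, p.1 x ∂(μ : Measure ℂ)|} := by
    ext μ
    simp [ST_C]
  rw [this]
  refine TO_compact.inter_right ?_
  refine Set.Finite.isClosed_biUnion F.finite_toSet ?_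
  intro p hp
  obtain ⟨h1, C, hC⟩ := hF p hp
  refine isClosed_le continuous_const (Continuous.abs (Continuous.sub ?_ ?_))
  · exact ST_cont (by fun_prop) ⟨C, fun x => hC _⟩
  · exact ST_cont h1 ⟨C, hC⟩

theorem ST_pos {a b : ℝ} (hab : a < b) (hb : e0 < b) :
    ∀ᶠ N : ℕ in atTop, sig N (Win N a b) ≠ 0 := by
  obtain ⟨ρ', g1, g2, g3, g4, g5⟩ := VM_some hab hb
  filter_upwards [LB_main g1 g2 g3 g4 g5 one_pos one_pos, eventually_ge_atTop 2] with N h2 h3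
  obtain ⟨κ, k0, kt, hk⟩ := SR_region N h3 1 one_pos
  rw [hk] at h2
  intro h
  rw [h, mul_zero, nonpos_iff_eq_zero, ENNReal.ofReal_eq_zero] at h2
  exact absurd (Real.exp_pos _) (not_lt.2 h2)

/-- the static estimate for a finite list of test functions -/
theorem ST_net {a b : ℝ} (hab : a < b) (hb : e0 < b) {F : Finset ((ℂ → ℝ) × ℝ)}
    (hF : ∀ p ∈ F, Continuous p.1 ∧ ∃ C, ∀ x, |p.1 x| ≤ C) {ε : ℝ} (hε : 0 < ε) :
    ∃ c > 0, ∀ᶠ N : ℕ in atTop, sig N {y | y ∈ Win N a b ∧ Bd F ε y} ≤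
        ENNReal.ofReal (Real.exp (-(c * N))) * sig N (Win N a b) := by
  have hloc : ∀ μ ∈ ST_C F ε, ∃ U : Set (ProbabilityMeasure ℂ), IsOpen U ∧ μ ∈ U ∧
      ∃ c > 0, ∀ᶠ N : ℕ in atTop, sig N {y | y ∈ Win N a b ∧ emp y ∈ U} ≤
        ENNReal.ofReal (Real.exp (-(c * N))) * sig N (Win N a b) := by
    rintro μ ⟨hμ, p, hp, hp'⟩
    obtain ⟨h1, h2⟩ := hF p hp
    refine ST_local hab hb hμ h1 h2 (θ := p.2) ?_
    intro h
    rw [h, sub_self, abs_zero] at hp'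
    linarith
  choose! U hUo hμU c hc hUc using hloc
  obtain ⟨t, hcov⟩ := (ST_compact hF ε).elim_nhds_subcover' (fun μ _ => U μ)
    (fun μ hμ => (hUo μ hμ).mem_nhds (hμU μ hμ))
  -- the smallest rate
  obtain ⟨c₀, hc₀, hcle⟩ : ∃ c₀ > 0, ∀ μ ∈ t, c₀ ≤ c μ := by
    rcases t.eq_empty_or_nonempty with h | h
    · exact ⟨1, one_pos, fun μ hμ => by simp [h] at hμ⟩
    · refine ⟨t.inf' h fun μ => c μ, ?_, fun μ hμ => Finset.inf'_le _ hμ⟩
      rw [gt_iff_lt, Finset.lt_inf'_iff]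
      exact fun μ _ => hc μ μ.2
  refine ⟨c₀ / 2, by positivity, ?_⟩
  have hall : ∀ᶠ N : ℕ in atTop, ∀ μ ∈ t, sig N {y | y ∈ Win N a b ∧ emp y ∈ U μ} ≤
        ENNReal.ofReal (Real.exp (-(c μ * N))) * sig N (Win N a b) := by
    rw [Filter.eventually_all_finset]
    exact fun μ _ => hUc μ μ.2
  have hcard : ∀ᶠ N : ℕ in atTop, (t.card : ℝ) * Real.exp (-(c₀ * N)) ≤
      Real.exp (-(c₀ / 2 * N)) := by
    have h1 : Tendsto (fun N : ℕ => Real.exp (c₀ / 2 * N)) atTop atTop :=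
      Real.tendsto_exp_atTop.comp (tendsto_natCast_atTop_atTop.const_mul_atTop (by positivity))
    filter_upwards [h1.eventually_ge_atTop (t.card : ℝ)] with N hN
    calc (t.card : ℝ) * Real.exp (-(c₀ * N)) ≤
        Real.exp (c₀ / 2 * N) * Real.exp (-(c₀ * N)) := by gcongr
      _ = Real.exp (-(c₀ / 2 * N)) := by rw [← Real.exp_add]; congr 1; ring
  filter_upwards [hall, hcard, eventually_ge_atTop 1] with N h1 h2 hN
  have hsub : {y : Conf N | y ∈ Win N a b ∧ Bd F ε y} ⊆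
      ⋃ μ ∈ t, {y | y ∈ Win N a b ∧ emp y ∈ U μ} := by
    rintro y ⟨hy, p, hp, hpy⟩
    have hC : emp y ∈ ST_C F ε := by
      refine ⟨TO_emp hN hy.1, p, hp, ?_⟩
      rw [TO_integral hN y p.1, TO_integral hN y fun x => p.1 (Complex.exp (p.2 * Complex.I) * x)]
      exact hpy
    obtain ⟨μ, hμ, hyμ⟩ := mem_iUnion₂.1 (hcov hC)
    exact mem_iUnion₂.2 ⟨μ, hμ, hy, hyμ⟩
  have hmono : sig N {y | y ∈ Win N a b ∧ Bd F ε y} ≤
      ∑ μ ∈ t, sig N {y | y ∈ Win N a b ∧ emp y ∈ U μ} := by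
    unfold sig
    refine le_trans (measure_mono ?_) (measure_biUnion_finset_le t _)
    rintro z ⟨hz, hz'⟩
    obtain ⟨μ, hμ, hyμ⟩ := mem_iUnion₂.1 (hsub hz')
    exact mem_iUnion₂.2 ⟨μ, hμ, hz, hyμ⟩
  calc sig N {y | y ∈ Win N a b ∧ Bd F ε y} ≤
      ∑ μ ∈ t, sig N {y | y ∈ Win N a b ∧ emp y ∈ U μ} := hmono
    _ ≤ ∑ μ ∈ t, ENNReal.ofReal (Real.exp (-(c₀ * N))) * sig N (Win N a b) := by
        refine Finset.sum_le_sum fun μ hμ => (h1 μ hμ).trans ?_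
        gcongr
        exact hcle μ hμ
    _ = ENNReal.ofReal (t.card * Real.exp (-(c₀ * N))) * sig N (Win N a b) := by
        rw [Finset.sum_const, nsmul_eq_mul, ENNReal.ofReal_mul (by positivity),
          ENNReal.ofReal_natCast, mul_assoc]
    _ ≤ ENNReal.ofReal (Real.exp (-(c₀ / 2 * N))) * sig N (Win N a b) := by
        gcongr

theorem ST_main {a b : ℝ} (hab : a < b) (hb : e0 < b) {ε : ℝ} (hε : 0 < ε) :
    ∃ c > 0, ∀ᶠ N : ℕ in atTop, sig N (Win N a b) ≠ 0 ∧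
      sig N {y | y ∈ Win N a b ∧ Far ε y} ≤
        ENNReal.ofReal (Real.exp (-(c * N))) * sig N (Win N a b) := by
  obtain ⟨F, hF, hnet⟩ := NT_net hε
  obtain ⟨c, hc, h⟩ := ST_net hab hb hF (ε := ε / 2) (by positivity)
  refine ⟨c, hc, ?_⟩
  filter_upwards [h, ST_pos hab hb, eventually_ge_atTop 1] with N h1 h2 hN
  refine ⟨h2, le_trans ?_ h1⟩
  unfold sig
  refine measure_mono ?_
  rintro z ⟨hz, hy, Φ, hΦ, θ, hθ⟩
  refine ⟨hz, hy, ?_⟩
  obtain ⟨p, hp, hp'⟩ := hnet _ (TO_emp hN hy.1) ⟨Φ, hΦ, θ, by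
    rw [TO_integral hN _ Φ, TO_integral hN _ fun x => Φ (Complex.exp (θ * Complex.I) * x)]
    exact hθ⟩
  rw [TO_integral hN _ p.1, TO_integral hN _ fun x => p.1 (Complex.exp (p.2 * Complex.I) * x)]
    at hp'
  exact ⟨p, hp, hp'⟩

end

end Pool.Agent.Lib_helper68.MC
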