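import Pool.Agent.Lib_helper12.HE.Defs

/-! Project MC (MP_b08f5f_an, microcanonical): definitions. -/

set_option autoImplicit false

namespace Pool.Agent.Lib_helper68.MC

open MeasureTheory Filter Topology Set
open scoped ComplexConjugate ENNReal NNReal
open Pool.Agent.Lib_helper25.PV (Conf vel Motion centre inertia NC VFlow)
open Pool.Agent.Lib_helper12.HE (ham rad nrm Gam sig shell turn one LimAvg)

noncomputable section

/-- probability densities with finite entropy and finite second moment -/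
structure Dens (ρ : ℂ → ℝ) : Prop where
  meas : Measurable ρ
  nonneg : ∀ x, 0 ≤ ρ x
  int : Integrable ρ
  one : ∫ x, ρ x = 1
  ent : Integrable fun x => ρ x * Real.log (ρ x)
  mom : Integrable fun x => ‖x‖ ^ 2 * ρ x

/-- the entropy `-∫ ρ log ρ` -/
def Sent (ρ : ℂ → ℝ) : ℝ := -∫ x, ρ x * Real.log (ρ x)

/-- the moment `∫ |x|² ρ` -/
def mo (ρ : ℂ → ℝ) : ℝ := ∫ x, ‖x‖ ^ 2 * ρ x

/-- the mean `∫ x ρ` -/
def mean (ρ : ℂ → ℝ) : ℂ := ∫ x, (ρ x : ℂ) * x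

/-- the energy `-(1/4π) ∬ log |x - y| ρ(x) ρ'(y)` -/
def En (ρ ρ' : ℂ → ℝ) : ℝ :=
  -(1 / (4 * Real.pi)) * ∫ p : ℂ × ℂ, Real.log ‖p.1 - p.2‖ * (ρ p.1 * ρ' p.2)

/-- mixture -/
def mix (t : ℝ) (ρ ρ' : ℂ → ℝ) : ℂ → ℝ := fun x => (1 - t) * ρ x + t * ρ' x

/-- dilation by the factor `s` -/
def dil (s : ℝ) (ρ : ℂ → ℝ) : ℂ → ℝ := fun x => (s ^ 2)⁻¹ * ρ ((s : ℂ)⁻¹ * x)

/-- the standard Gaussian with moment `1` -/
def gau : ℂ → ℝ := fun x => Real.pi⁻¹ * Real.exp (-‖x‖ ^ 2)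

/-- the measure with density `ρ` -/
def wd (ρ : ℂ → ℝ) : Measure ℂ := volume.withDensity fun x => ENNReal.ofReal (ρ x)

/-- the kernel `-(1/4π) log |x|`, cut off at distance `r` -/
def ker (r : ℝ) (x : ℂ) : ℝ := -(1 / (4 * Real.pi)) * Real.log (max ‖x‖ r)

/-- what the cut-off has removed; `-(1/4π) log |x| = ker r x + near r x` -/
def near (r : ℝ) (x : ℂ) : ℝ := (1 / (4 * Real.pi)) * (Real.log (max ‖x‖ r) - Real.log ‖x‖)

/-- the energy of the uniform disc with moment one -/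
def e0 : ℝ := (1 - 2 * Real.log 2) / (16 * Real.pi)

/-- the part of `Γ_N` with `a ≤ H / N² ≤ b` -/
def Win (N : ℕ) (a b : ℝ) : Set (Conf N) :=
  {y | y ∈ Gam N ∧ a ≤ ham y / (N : ℝ) ^ 2 ∧ ham y / (N : ℝ) ^ 2 ≤ b}

/-- the configurations close to their normalisation -/
def Reg (N : ℕ) (η : ℝ) : Set (Conf N) := {z | ‖centre z‖ ≤ η ∧ 1 ≤ rad z ∧ rad z < 1 + η}

/-- the distribution of the vortices is not `ε`-close to its rotations -/
def Far {N : ℕ} (ε : ℝ) (y : Conf N) : Prop :=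
  ∃ Φ : ℂ → ℝ, LipschitzWith 1 Φ ∧ ∃ θ : ℝ, ε < |one N Φ (turn θ y) - one N Φ y|

theorem emp_prob {N : ℕ} (h : 0 < N) (y : Conf N) :
    IsProbabilityMeasure ((N : ℝ≥0∞)⁻¹ • ∑ i, Measure.dirac (y i)) := by
  constructor
  simp only [Measure.smul_apply, Measure.coe_finsetSum, Finset.sum_apply, measure_univ,
    Finset.sum_const, Finset.card_univ, Fintype.card_fin, smul_eq_mul, nsmul_eq_mul, mul_one]
  exact ENNReal.inv_mul_cancel (by exact_mod_cast h.ne') (ENNReal.natCast_ne_top N)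

/-- the empirical measure -/
def emp {N : ℕ} (y : Conf N) : ProbabilityMeasure ℂ :=
  if h : 0 < N then ⟨(N : ℝ≥0∞)⁻¹ • ∑ i, Measure.dirac (y i), emp_prob h y⟩
  else ⟨Measure.dirac 0, inferInstance⟩

/-- probability measures with second moment at most one -/
def KK : Set (ProbabilityMeasure ℂ) := {μ | ∫⁻ x, ‖x‖ₑ ^ 2 ∂(μ : Measure ℂ) ≤ 1}

/-- the weight `exp (f - α |x|²)` -/
def wt (α : ℝ) (f : ℂ → ℝ) : ℂ → ℝ := fun x => Real.exp (f x - α * ‖x‖ ^ 2)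

end

end Pool.Agent.Lib_helper68.MC
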