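import Pool.Agent.Lib_helper68.MC.Defs

/-! Project MC (MP_b08f5f_an, microcanonical), all times: definitions. -/

set_option autoImplicit false

namespace Pool.Agent.Lib_helper68.MC

open MeasureTheory Filter Topology Set
open scoped ComplexConjugate ENNReal NNReal
open Pool.Agent.Lib_helper25.PV (Conf vel Motion centre inertia NC VFlow)
open Pool.Agent.Lib_helper12.HE (ham rad nrm Gam sig shell turn one LimAvg)

noncomputable section

/-- admissible test functions: bounded, continuous, with a Lipschitz derivative -/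
def Tst (Φ : ℂ → ℝ) : Prop :=
  Continuous Φ ∧ (∃ C, ∀ x, |Φ x| ≤ C) ∧ Differentiable ℝ Φ ∧
    ∃ L, ∀ x y, ‖fderiv ℝ Φ x - fderiv ℝ Φ y‖ ≤ L * ‖x - y‖

/-- some test function of the list sees the difference between `y` and a rotation of `y` -/
def Bd {N : ℕ} (F : Finset ((ℂ → ℝ) × ℝ)) (ε : ℝ) (y : Conf N) : Prop :=
  ∃ p ∈ F, ε ≤ |one N p.1 (turn p.2 y) - one N p.1 y|

end

end Pool.Agent.Lib_helper68.MC
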