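import Pool.Agent.Lib_helper68.MC.ST
import Pool.Agent.Lib_helper23.MC.DYA
import Pool.Agent.Lib_helper23.MC.AT
import Pool.Agent.Lib_helper92.MC.NU
import Pool.Agent.Lib_helper25.PV.Flow

/-! Project MC (MP_b08f5f_an, microcanonical), block FN: the final theorem. -/

set_option autoImplicit false

namespace Pool.Agent.Lib_helper68.MC

open MeasureTheory Filter Topology Set
open scoped ComplexConjugate ENNReal NNReal
open Pool.Agent.Lib_helper25.PV (Conf vel Motion centre inertia NC VFlow exists_vflow)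
open Pool.Agent.Lib_helper12.HE (ham rad nrm Gam sig shell turn one LimAvg GL_ham GL_Gam_inv)

noncomputable section

theorem FN_inv {N : ℕ} (V : VFlow N) (a b : ℝ) : ∀ y ∈ Win N a b, ∀ t, V.φ t y ∈ Win N a b := by
  rintro y ⟨h1, h2, h3⟩ t
  refine ⟨GL_Gam_inv V h1 t, ?_, ?_⟩
  · rw [GL_ham V h1.1]
    exact h2
  · rw [GL_ham V h1.1]
    exact h3

theorem FN_small {k a : ℝ} (hk : 0 < k) (ha : 0 < a) :
    ∀ᶠ N : ℕ in atTop, Real.exp (-(k * N)) ≤ a := by
  have h2 : Tendsto (fun N : ℕ => -(k * (N : ℝ))) atTop atBot :=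
    tendsto_neg_atTop_atBot.comp (tendsto_natCast_atTop_atTop.const_mul_atTop hk)
  exact (((Real.tendsto_exp_atBot.comp h2).eventually (Iio_mem_nhds ha))).mono
    fun N hN => le_of_lt hN

theorem FN_main {a b : ℝ} (hab : a < b) (hb : e0 < b) {ε : ℝ} (hε : 0 < ε) :
    ∃ c > 0, ∃ N₀ : ℕ, ∀ N ≥ N₀, 0 < sig N (Win N a b) ∧ ∃ Bad ⊆ Win N a b,
      sig N Bad ≤ ENNReal.ofReal (Real.exp (-(c * N))) * sig N (Win N a b) ∧
      ∀ y ∈ Win N a b, y ∉ Bad → ∀ w : ℝ → Conf N, Motion w → w 0 = y →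
        (∀ Ψ : Conf N → ℝ, Continuous Ψ → ∃ l, LimAvg w Ψ l) ∧
        (∀ Φ : ℂ → ℝ, LipschitzWith 1 Φ → ∀ θ l l' : ℝ, LimAvg w (one N Φ) l →
          LimAvg w (fun z => one N Φ (turn θ z)) l' → |l' - l| ≤ ε) ∧
        ∃ l ≤ Real.exp (-(c * N)), LimAvg w ({y : Conf N | Far ε y}.indicator fun _ => 1) l := by
  obtain ⟨c, hc, hst⟩ := ST_main hab hb (ε := ε / 2) (by positivity)
  have hev : ∀ᶠ N : ℕ in atTop, 2 ≤ N ∧ (sig N (Win N a b) ≠ 0 ∧
      sig N {y | y ∈ Win N a b ∧ Far (ε / 2) y} ≤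
        ENNReal.ofReal (Real.exp (-(c * N))) * sig N (Win N a b)) ∧
      Real.exp (-(c / 2 * N)) ≤ ε / 4 ∧ Real.exp (-(c / 4 * N)) ≤ 1 / 2 := by
    filter_upwards [eventually_ge_atTop 2, hst, FN_small (by positivity : 0 < c / 2)
      (by positivity : 0 < ε / 4), FN_small (by positivity : 0 < c / 4)
      (by norm_num : (0 : ℝ) < 1 / 2)] with N h1 h2 h3 h4
    exact ⟨h1, h2, h3, h4⟩
  obtain ⟨N₀, hN₀⟩ := eventually_atTop.1 hev
  refine ⟨c / 4, by positivity, N₀, fun N hN => ?_⟩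
  obtain ⟨hN2, ⟨hpos, hbad⟩, hsm, hsm'⟩ := hN₀ N hN
  refine ⟨pos_iff_ne_zero.2 hpos, ?_⟩
  obtain ⟨V⟩ := exists_vflow N (by omega)
  set δ : ℝ := Real.exp (-(c / 2 * N)) with hδ
  have hδ0 : 0 < δ := Real.exp_pos _
  obtain ⟨D₁, hD₁, hs₁, hg₁⟩ := DY_birkhoff hN2 V (fun y hy => hy.1) (DY_win hN2 a b)
    (DY_far (ε / 2)).measurableSet (FN_inv V a b) hδ0
  obtain ⟨D₂, hD₂, hs₂, hg₂⟩ := DY_birkhoff hN2 V (fun y hy => hy.1) (DY_win hN2 a b)
    (DY_far ε).measurableSet (FN_inv V a b) hδ0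
  have hfar : {y : Conf N | y ∈ Win N a b ∧ y ∈ {y : Conf N | Far ε y}} ⊆
      {y | y ∈ Win N a b ∧ Far (ε / 2) y} := by
    rintro y ⟨hy, Φ, hΦ, θ, hθ⟩
    exact ⟨hy, Φ, hΦ, θ, by linarith⟩
  have hs₂' : sig N D₂ ≤ ENNReal.ofReal (1 / δ) * sig N {y | y ∈ Win N a b ∧ Far (ε / 2) y} := by
    refine hs₂.trans ?_
    gcongr
    unfold sig
    refine measure_mono ?_
    rintro z ⟨hz, hz'⟩
    exact ⟨hz, hfar hz'⟩
  refine ⟨D₁ ∪ D₂, union_subset hD₁ hD₂, ?_, ?_⟩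
  · have h1 : sig N (D₁ ∪ D₂) ≤ sig N D₁ + sig N D₂ := by
      unfold sig
      refine le_trans (measure_mono ?_) (measure_union_le _ _)
      rintro z ⟨hz, hz'⟩
      rcases hz' with h | h
      · exact Or.inl ⟨hz, h⟩
      · exact Or.inr ⟨hz, h⟩
    have h2 : ENNReal.ofReal (1 / δ) * sig N {y | y ∈ Win N a b ∧ Far (ε / 2) y} ≤
        ENNReal.ofReal δ * sig N (Win N a b) := by
      calc ENNReal.ofReal (1 / δ) * sig N {y | y ∈ Win N a b ∧ Far (ε / 2) y} ≤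
          ENNReal.ofReal (1 / δ) *
            (ENNReal.ofReal (Real.exp (-(c * N))) * sig N (Win N a b)) := by gcongr
        _ = ENNReal.ofReal δ * sig N (Win N a b) := by
          rw [← mul_assoc, ← ENNReal.ofReal_mul (by positivity)]
          congr 2
          rw [hδ, one_div, ← Real.exp_neg, ← Real.exp_add]
          congr 1
          ring
    calc sig N (D₁ ∪ D₂) ≤ sig N D₁ + sig N D₂ := h1
      _ ≤ ENNReal.ofReal δ * sig N (Win N a b) + ENNReal.ofReal δ * sig N (Win N a b) :=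
          add_le_add (hs₁.trans h2) (hs₂'.trans h2)
      _ = ENNReal.ofReal (2 * δ) * sig N (Win N a b) := by
          rw [ENNReal.ofReal_mul (by norm_num), ← add_mul, ← two_mul]
          norm_num
      _ ≤ ENNReal.ofReal (Real.exp (-(c / 4 * N))) * sig N (Win N a b) := by
          gcongr
          have : δ = Real.exp (-(c / 4 * N)) * Real.exp (-(c / 4 * N)) := by
            rw [hδ, ← Real.exp_add]
            congr 1
            ring
          rw [this]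
          nlinarith [Real.exp_pos (-(c / 4 * (N : ℝ)))]
  · intro y hy hyD w hw hw0
    have hyD₁ : y ∉ D₁ := fun h => hyD (Or.inl h)
    have hyD₂ : y ∉ D₂ := fun h => hyD (Or.inr h)
    have hwe : w = fun t => V.φ t y := by
      funext t
      rw [V.uniq w hw t, hw0]
    have hw' : Continuous w := by
      rw [hwe]
      exact V.cont y
    have hG : ∀ t, w t ∈ Gam N := by
      intro t
      rw [hwe]
      exact (FN_inv V a b y hy t).1
    obtain ⟨g1, l₁, hl₁, g2⟩ := hg₁ y hy hyD₁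
    obtain ⟨g3, l₂, hl₂, g4⟩ := hg₂ y hy hyD₂
    rw [← hwe] at g2 g4
    refine ⟨fun Ψ hΨ => ?_, fun Φ hΦ θ l l' h1 h2 => ?_, l₂, ?_, g4⟩
    · rw [hwe]
      exact g1 Ψ hΨ
    · have := DY_avg hN2 hw' hG (by positivity : 0 ≤ ε / 2) ⟨l₁, hl₁, g2⟩ hΦ h1 h2
      linarith
    · refine hl₂.trans (Real.exp_le_exp.2 ?_)
      have : 0 ≤ c * N := by positivity
      linarith

theorem FN_union {N : ℕ} {a b : ℝ} {D₁ D₂ : Set (Conf N)} {x y z : ℝ}
    (h1 : sig N D₁ ≤ ENNReal.ofReal x * sig N (Win N a b))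
    (h2 : sig N D₂ ≤ ENNReal.ofReal y * sig N (Win N a b)) (hx : 0 ≤ x) (hy : 0 ≤ y)
    (hz : x + y ≤ z) : sig N (D₁ ∪ D₂) ≤ ENNReal.ofReal z * sig N (Win N a b) := by
  have h3 : sig N (D₁ ∪ D₂) ≤ sig N D₁ + sig N D₂ := by
    unfold sig
    refine le_trans (measure_mono ?_) (measure_union_le _ _)
    rintro z ⟨hz, hz'⟩
    rcases hz' with h | h
    · exact Or.inl ⟨hz, h⟩
    · exact Or.inr ⟨hz, h⟩
  calc sig N (D₁ ∪ D₂) ≤ sig N D₁ + sig N D₂ := h3
    _ ≤ ENNReal.ofReal x * sig N (Win N a b) + ENNReal.ofReal y * sig N (Win N a b) :=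
        add_le_add h1 h2
    _ = ENNReal.ofReal (x + y) * sig N (Win N a b) := by
        rw [ENNReal.ofReal_add hx hy, add_mul]
    _ ≤ ENNReal.ofReal z * sig N (Win N a b) := by gcongr

theorem FN_final {a b : ℝ} (hab : a < b) (hb : e0 < b) {ε : ℝ} (hε : 0 < ε) :
    ∃ c > 0, ∃ N₀ : ℕ, ∀ N ≥ N₀, 0 < sig N (Win N a b) ∧ ∃ Bad ⊆ Win N a b,
      sig N Bad ≤ ENNReal.ofReal (Real.exp (-(c * N))) * sig N (Win N a b) ∧
      ∀ y ∈ Win N a b, y ∉ Bad → ∀ w : ℝ → Conf N, Motion w → w 0 = y →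
        (∀ Ψ : Conf N → ℝ, Continuous Ψ → ∃ l, LimAvg w Ψ l) ∧
        (∀ Φ : ℂ → ℝ, LipschitzWith 1 Φ → ∀ θ l l' : ℝ, LimAvg w (one N Φ) l →
          LimAvg w (fun z => one N Φ (turn θ z)) l' → |l' - l| ≤ ε) ∧
        (∃ l ≤ Real.exp (-(c * N)), LimAvg w ({y : Conf N | Far ε y}.indicator fun _ => 1) l) ∧
        ∀ t, |t| ≤ Real.exp (c * N) → ¬ Far ε (w t) := by
  obtain ⟨c₁, hc₁, N₁, h₁⟩ := FN_main hab hb hε
  obtain ⟨F, hF, hnet⟩ := NU_net hε
  obtain ⟨c₂, hc₂, h₂⟩ := ST_net hab hb (F := F) (fun p hp => ⟨(hF p hp).1, (hF p hp).2.1⟩)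
    (ε := ε / 4 / 2) (by positivity)
  obtain ⟨C, hC, h₃⟩ := AT_main hF (ε := ε / 4) (by positivity)
  set c : ℝ := min c₁ (c₂ / 4) / 2 with hc
  have hc0 : 0 < c := by positivity
  have hcc₁ : 2 * c ≤ c₁ := by
    have := min_le_left c₁ (c₂ / 4)
    linarith
  have hcc₂ : 8 * c ≤ c₂ := by
    have := min_le_right c₁ (c₂ / 4)
    linarith
  have hlim : Tendsto (fun N : ℕ => (N : ℝ) * Real.exp (-(c * N))) atTop (𝓝 0) := by
    have h := (Real.tendsto_pow_mul_exp_neg_atTop_nhds_zero 1).comp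
      (tendsto_natCast_atTop_atTop.const_mul_atTop hc0)
    have h' := h.const_mul c⁻¹
    rw [mul_zero] at h'
    refine h'.congr fun N => ?_
    simp only [Function.comp_apply, pow_one]
    field_simp
  have hev : ∀ᶠ N : ℕ in atTop, N₁ ≤ N ∧ 2 ≤ N ∧
      sig N {y | y ∈ Win N a b ∧ Bd F (ε / 4 / 2) y} ≤
        ENNReal.ofReal (Real.exp (-(c₂ * N))) * sig N (Win N a b) ∧
      Real.exp (-(c * N)) ≤ 1 / 2 ∧ (N : ℝ) * Real.exp (-(c * N)) ≤ 1 / (2 * C) := by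
    filter_upwards [eventually_ge_atTop N₁, eventually_ge_atTop 2, h₂,
      FN_small hc0 (by norm_num : (0 : ℝ) < 1 / 2),
      hlim.eventually (Iic_mem_nhds (by positivity : (0 : ℝ) < 1 / (2 * C)))]
      with N g1 g2 g3 g4 g5
    exact ⟨g1, g2, g3, g4, g5⟩
  obtain ⟨N₀, hN₀⟩ := eventually_atTop.1 hev
  refine ⟨c, hc0, N₀, fun N hN => ?_⟩
  obtain ⟨hN1, hN2, hbd, hs1, hs2⟩ := hN₀ N hN
  obtain ⟨hpos, B, hB, hBs, hBg⟩ := h₁ N hN1
  refine ⟨hpos, ?_⟩
  obtain ⟨V⟩ := exists_vflow N (by omega)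
  set B' : Set (Conf N) := {y | y ∈ Win N a b ∧ ∃ t, |t| ≤ Real.exp (c * N) ∧
    Bd F (ε / 4) (V.φ t y)} with hB'
  have hx0 : 0 < Real.exp (-(c * N)) := Real.exp_pos _
  have hx1 : Real.exp (-(c * N)) * Real.exp (c * N) = 1 := by
    rw [← Real.exp_add]
    simp
  have hN0 : (0 : ℝ) ≤ N := Nat.cast_nonneg N
  have hB's : sig N B' ≤ ENNReal.ofReal (Real.exp (-(c * N)) / 2) * sig N (Win N a b) := by
    calc sig N B' ≤ ENNReal.ofReal (C * N * (1 + Real.exp (c * N))) *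
          sig N {y | y ∈ Win N a b ∧ Bd F (ε / 4 / 2) y} :=
          h₃ N hN2 V _ (fun y hy => hy.1) (DY_win hN2 a b) (FN_inv V a b) _ (Real.exp_pos _).le
      _ ≤ ENNReal.ofReal (C * N * (1 + Real.exp (c * N))) *
          (ENNReal.ofReal (Real.exp (-(c₂ * N))) * sig N (Win N a b)) := by gcongr
      _ = ENNReal.ofReal (C * N * (1 + Real.exp (c * N)) * Real.exp (-(c₂ * N))) *
          sig N (Win N a b) := by
          rw [← mul_assoc, ← ENNReal.ofReal_mul (by positivity)]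
      _ ≤ ENNReal.ofReal (Real.exp (-(c * N)) / 2) * sig N (Win N a b) := by
          gcongr
          set x : ℝ := Real.exp (-(c * N)) with hx
          set X : ℝ := Real.exp (c * N) with hX
          have e1 : Real.exp (-(c₂ * N)) ≤ x * x * x * x := by
            rw [hx, ← Real.exp_add, ← Real.exp_add, ← Real.exp_add]
            apply Real.exp_le_exp.2
            nlinarith
          have e2 : C * (N * x) ≤ 1 / 2 := by
            calc C * (N * x) ≤ C * (1 / (2 * C)) := by gcongr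
              _ = 1 / 2 := by field_simp
          have e3 : x ≤ 1 / 2 := hs1
          have hX0 : 0 < X := Real.exp_pos _
          calc C * N * (1 + X) * Real.exp (-(c₂ * N)) ≤ C * N * (1 + X) * (x * x * x * x) := by
                gcongr
            _ = (C * (N * x)) * ((x + x * X) * (x * x)) := by ring
            _ = (C * (N * x)) * ((x + 1) * (x * x)) := by rw [hx1]
            _ ≤ 1 / 2 * ((1 / 2 + 1) * (1 / 2 * x)) := by gcongr
            _ ≤ x / 2 := by linarith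
  refine ⟨B ∪ B', union_subset hB fun y hy => hy.1, ?_, ?_⟩
  · refine FN_union (hBs) hB's (Real.exp_pos _).le (by positivity) ?_
    have e4 : Real.exp (-(c₁ * N)) ≤ Real.exp (-(c * N)) * Real.exp (-(c * N)) := by
      rw [← Real.exp_add]
      apply Real.exp_le_exp.2
      nlinarith
    nlinarith
  · intro y hy hyB w hw hw0
    have hyB1 : y ∉ B := fun h => hyB (Or.inl h)
    have hyB2 : y ∉ B' := fun h => hyB (Or.inr h)
    obtain ⟨g1, g2, ⟨l, hl, g3⟩⟩ := hBg y hy hyB1 w hw hw0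
    refine ⟨g1, g2, ⟨l, hl.trans (Real.exp_le_exp.2 ?_), g3⟩, ?_⟩
    · nlinarith
    · intro t ht hfar
      apply hyB2
      refine ⟨hy, t, ht, ?_⟩
      have e : w t = V.φ t y := by rw [V.uniq w hw t, hw0]
      rw [← e]
      refine hnet N (by omega) (w t) ?_ hfar
      rw [e]
      exact (FN_inv V a b y hy t).1

end

end Pool.Agent.Lib_helper68.MC
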