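import Pool.Agent.Lib_helper68.MC.S3
import Pool.Agent.Lib_helper92.MC.N2
import Pool.Agent.Lib_helper91.MC.A2
import Pool.Agent.Lib_helper23.MC.D2
import Pool.Agent.Lib_helper68.MC.FN

/-! Project MC (MP_b08f5f_an, microcanonical), block F3: the final theorem for all windows with the
limit identified. -/

set_option autoImplicit false

namespace Pool.Agent.Lib_helper68.MC

open MeasureTheory Filter Topology Set
open scoped ComplexConjugate ENNReal NNReal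
open Pool.Agent.Lib_helper25.PV (Conf vel Motion centre inertia NC VFlow exists_vflow)
open Pool.Agent.Lib_helper12.HE (ham rad nrm Gam sig shell turn one LimAvg)

noncomputable section

theorem F3_sig_mono {N : ℕ} {A B : Set (Conf N)} (h : A ⊆ B) : sig N A ≤ sig N B := by
  unfold sig
  refine measure_mono ?_
  rintro z ⟨hz, hz'⟩
  exact ⟨hz, h hz'⟩

theorem F3_main {a b : ℝ} (hab : a < b) (hb : e0 < b) {ρ : ℂ → ℝ}
    (h : Eqm (max a (min b (En gau gau))) ρ) {ε : ℝ} (hε : 0 < ε) :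
    ∃ c > 0, ∃ N₀ : ℕ, ∀ N ≥ N₀,
      0 < sig N (Win N a b) ∧ ∃ Bad ⊆ Win N a b,
      sig N Bad ≤ ENNReal.ofReal (Real.exp (-(c * N))) * sig N (Win N a b) ∧
      ∀ y ∈ Win N a b, y ∉ Bad → ∀ w : ℝ → Conf N, Motion w → w 0 = y →
        (∀ Ψ : Conf N → ℝ, Continuous Ψ → ∃ l, LimAvg w Ψ l) ∧
        (∀ Φ : ℂ → ℝ, LipschitzWith 1 Φ → ∀ l : ℝ, LimAvg w (one N Φ) l →
          |l - ∫ x, Φ x * ρ x| ≤ ε) ∧
        (∃ l ≤ Real.exp (-(c * N)), LimAvg w ({y : Conf N | Off ρ ε y}.indicator fun _ => 1) l) ∧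
        ∀ t, |t| ≤ Real.exp (c * N) → ¬ Off ρ ε (w t) := by
  have hmo : mo ρ ≤ 1 := h.mo_eq.le
  -- nets for `ε / 2`
  obtain ⟨F, hF, hnet⟩ := N2_net h.dens hmo (ε := ε / 2) (by positivity)
  have hFc : ∀ Φ ∈ F, Continuous Φ ∧ ∃ C, ∀ x, |Φ x| ≤ C := fun Φ hΦ =>
    ⟨(hF Φ hΦ).1, (hF Φ hΦ).2.1⟩
  obtain ⟨c₂, hc₂, h₂⟩ := S3_net hab hb h hFc (ε := ε / 2 / 4 / 2) (by positivity)
  classical
  set F' : Finset ((ℂ → ℝ) × ℝ) := F.image fun Φ => (Φ, ∫ x, Φ x * ρ x) with hF'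
  have hF't : ∀ p ∈ F', Tst p.1 := by
    intro p hp
    obtain ⟨Φ, hΦ, rfl⟩ := Finset.mem_image.1 hp
    exact hF Φ hΦ
  have hBc : ∀ {N : ℕ} (η : ℝ) (y : Conf N), Bc F' η y ↔
      ∃ Φ ∈ F, η ≤ |one N Φ y - ∫ x, Φ x * ρ x| := by
    intro N η y
    constructor
    · rintro ⟨p, hp, hp'⟩
      obtain ⟨Φ, hΦ, rfl⟩ := Finset.mem_image.1 hp
      exact ⟨Φ, hΦ, hp'⟩
    · rintro ⟨Φ, hΦ, hΦ'⟩
      exact ⟨(Φ, ∫ x, Φ x * ρ x), Finset.mem_image_of_mem _ hΦ, hΦ'⟩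
  obtain ⟨C, hC, h₃⟩ := A2_main hF't (ε := ε / 2 / 4) (by positivity)
  set c : ℝ := c₂ / 8 with hc
  have hc0 : 0 < c := by positivity
  have hlim : Tendsto (fun N : ℕ => (N : ℝ) * Real.exp (-(c * N))) atTop (𝓝 0) := by
    have h := (Real.tendsto_pow_mul_exp_neg_atTop_nhds_zero 1).comp
      (tendsto_natCast_atTop_atTop.const_mul_atTop hc0)
    have h' := h.const_mul c⁻¹
    rw [mul_zero] at h'
    refine h'.congr fun N => ?_
    simp only [Function.comp_apply, pow_one]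
    field_simp
  have hev : ∀ᶠ N : ℕ in atTop, 2 ≤ N ∧ (sig N (Win N a b) ≠ 0 ∧
      sig N {y | y ∈ Win N a b ∧
          ∃ Φ ∈ F, ε / 2 / 4 / 2 ≤ |one N Φ y - ∫ x, Φ x * ρ x|} ≤
        ENNReal.ofReal (Real.exp (-(c₂ * N))) * sig N (Win N a b)) ∧
      Real.exp (-(c * N)) ≤ 1 / 4 ∧ Real.exp (-(c * N)) ≤ ε / 4 ∧
      (N : ℝ) * Real.exp (-(c * N)) ≤ 1 / (2 * C) := by
    filter_upwards [eventually_ge_atTop 2, h₂, ST_pos hab hb,
      FN_small hc0 (by norm_num : (0 : ℝ) < 1 / 4), FN_small hc0 (by positivity : 0 < ε / 4),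
      hlim.eventually (Iic_mem_nhds (by positivity : (0 : ℝ) < 1 / (2 * C)))]
      with N g1 g2 g6 g3 g4 g5
    exact ⟨g1, ⟨g6, g2⟩, g3, g4, g5⟩
  obtain ⟨N₀, hN₀⟩ := eventually_atTop.1 hev
  refine ⟨c, hc0, N₀, fun N hN => ?_⟩
  obtain ⟨hN2, ⟨hpos, hbd⟩, hs1, hs3, hs2⟩ := hN₀ N hN
  refine ⟨pos_iff_ne_zero.2 hpos, ?_⟩
  obtain ⟨V⟩ := exists_vflow N (by omega)
  set W : Set (Conf N) := Win N a b with hW
  set x : ℝ := Real.exp (-(c * N)) with hx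
  have hx0 : 0 < x := Real.exp_pos _
  have hxX : x * Real.exp (c * N) = 1 := by
    rw [hx, ← Real.exp_add]
    simp
  have hx8 : Real.exp (-(c₂ * N)) = x ^ 8 := by
    rw [hx, ← Real.exp_nat_mul]
    congr 1
    rw [hc]
    push_cast
    ring
  have hx1 : x ≤ 1 / 4 := hs1
  have hWm : MeasurableSet W := DY_win hN2 _ _
  have hWi : ∀ y ∈ W, ∀ t, V.φ t y ∈ W := FN_inv V _ _
  have hWG : W ⊆ Gam N := fun y hy => hy.1
  -- the static bad set at the three levels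
  have hoff : ∀ y ∈ W, Off ρ (ε / 2) y → Bc F' (ε / 2 / 4) y := fun y hy ho =>
    (hBc _ y).2 (hnet N (by omega) y (hWG hy) ho)
  have hbd' : sig N {y | y ∈ W ∧ Bc F' (ε / 2 / 4 / 2) y} ≤
      ENNReal.ofReal (x ^ 8) * sig N W := by
    rw [← hx8]
    refine le_trans (F3_sig_mono ?_) hbd
    rintro y ⟨hy, hy'⟩
    exact ⟨hy, (hBc _ y).1 hy'⟩
  have hbdo : ∀ η : ℝ, ε / 2 ≤ η → sig N {y | y ∈ W ∧ y ∈ {y : Conf N | Off ρ η y}} ≤
      ENNReal.ofReal (x ^ 8) * sig N W := by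
    intro η hη
    refine le_trans (F3_sig_mono ?_) hbd'
    rintro y ⟨hy, Φ, hΦ, hΦ'⟩
    refine ⟨hy, ?_⟩
    obtain ⟨p, hp, hp'⟩ := hoff y hy ⟨Φ, hΦ, by linarith⟩
    exact ⟨p, hp, by linarith⟩
  -- time averages
  obtain ⟨D₁, hD₁, hd₁, hg₁⟩ := DY_birkhoff hN2 V hWG hWm (D2_open ρ (ε / 2)).measurableSet hWi hx0
  obtain ⟨D₂, hD₂, hd₂, hg₂⟩ := DY_birkhoff hN2 V hWG hWm (D2_open ρ ε).measurableSet hWi hx0
  have hdd : ∀ {D : Set (Conf N)} {η : ℝ}, ε / 2 ≤ η →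
      sig N D ≤ ENNReal.ofReal (1 / x) * sig N {y | y ∈ W ∧ y ∈ {y : Conf N | Off ρ η y}} →
      sig N D ≤ ENNReal.ofReal (x ^ 7) * sig N W := by
    intro D η hη hD
    calc sig N D ≤ ENNReal.ofReal (1 / x) *
          sig N {y | y ∈ W ∧ y ∈ {y : Conf N | Off ρ η y}} := hD
      _ ≤ ENNReal.ofReal (1 / x) * (ENNReal.ofReal (x ^ 8) * sig N W) := by
          gcongr
          exact hbdo η hη
      _ = ENNReal.ofReal (x ^ 7) * sig N W := by
          rw [← mul_assoc, ← ENNReal.ofReal_mul (by positivity)]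
          congr 2
          field_simp
  have hd₁' := hdd le_rfl hd₁
  have hd₂' := hdd (by linarith : ε / 2 ≤ ε) hd₂
  -- all times
  set B' : Set (Conf N) := {y | y ∈ W ∧ ∃ t, |t| ≤ Real.exp (c * N) ∧
    Bc F' (ε / 2 / 4) (V.φ t y)} with hB'
  have hB's : sig N B' ≤ ENNReal.ofReal (x ^ 6) * sig N W := by
    calc sig N B' ≤ ENNReal.ofReal (C * N * (1 + Real.exp (c * N))) *
          sig N {y | y ∈ W ∧ Bc F' (ε / 2 / 4 / 2) y} :=
          h₃ N hN2 V _ hWG hWm hWi _ (Real.exp_pos _).le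
      _ ≤ ENNReal.ofReal (C * N * (1 + Real.exp (c * N))) *
          (ENNReal.ofReal (x ^ 8) * sig N W) := by gcongr
      _ = ENNReal.ofReal (C * N * (1 + Real.exp (c * N)) * x ^ 8) * sig N W := by
          rw [← mul_assoc, ← ENNReal.ofReal_mul (by positivity)]
      _ ≤ ENNReal.ofReal (x ^ 6) * sig N W := by
          gcongr
          have e2 : C * (N * x) ≤ 1 / 2 := by
            calc C * (N * x) ≤ C * (1 / (2 * C)) := by gcongr
              _ = 1 / 2 := by field_simp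
          calc C * N * (1 + Real.exp (c * N)) * x ^ 8 =
                (C * (N * x)) * ((x + x * Real.exp (c * N)) * x ^ 6) := by ring
            _ = (C * (N * x)) * ((x + 1) * x ^ 6) := by rw [hxX]
            _ ≤ 1 / 2 * ((1 / 4 + 1) * x ^ 6) := by gcongr
            _ ≤ x ^ 6 := by nlinarith [pow_pos hx0 6]
  refine ⟨D₁ ∪ D₂ ∪ B', union_subset (union_subset hD₁ hD₂) fun y hy => hy.1, ?_, ?_⟩
  · have hx7 : x ^ 7 ≤ 1 / 4 * x := by
      have : x ^ 6 ≤ 1 := pow_le_one₀ hx0.le (by linarith)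
      nlinarith [pow_le_pow_left₀ hx0.le hx1 6, pow_pos hx0 6]
    have hx6 : x ^ 6 ≤ 1 / 4 * x := by
      nlinarith [pow_le_pow_left₀ hx0.le hx1 5, pow_pos hx0 5]
    have h12 : sig N (D₁ ∪ D₂) ≤ ENNReal.ofReal (x ^ 7 + x ^ 7) * sig N W :=
      FN_union hd₁' hd₂' (by positivity) (by positivity) le_rfl
    exact FN_union h12 hB's (by positivity) (by positivity) (by nlinarith)
  · intro y hy hyB w hw hw0
    have hyD₁ : y ∉ D₁ := fun h => hyB (Or.inl (Or.inl h))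
    have hyD₂ : y ∉ D₂ := fun h => hyB (Or.inl (Or.inr h))
    have hyB' : y ∉ B' := fun h => hyB (Or.inr h)
    have hwe : w = fun t => V.φ t y := by
      funext t
      rw [V.uniq w hw t, hw0]
    have hw' : Continuous w := by
      rw [hwe]
      exact V.cont y
    have hG : ∀ t, w t ∈ Gam N := by
      intro t
      rw [hwe]
      exact hWG (hWi y hy t)
    obtain ⟨g1, l₁, hl₁, g2⟩ := hg₁ y hy hyD₁
    obtain ⟨g3, l₂, hl₂, g4⟩ := hg₂ y hy hyD₂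
    rw [← hwe] at g2 g4
    refine ⟨fun Ψ hΨ => ?_, fun Φ hΦ l h1 => ?_, ⟨l₂, hl₂, g4⟩, fun t ht hfar => ?_⟩
    · rw [hwe]
      exact g1 Ψ hΨ
    · have := D2_avg hN2 h.dens hmo hw' hG (by positivity : 0 ≤ ε / 2) ⟨l₁, hl₁, g2⟩ hΦ h1
      have hxx : x ≤ ε / 4 := hs3
      linarith
    · apply hyB'
      obtain ⟨Φ, hΦ, hΦ'⟩ := hfar
      refine ⟨hy, t, ht, ?_⟩
      have e' : w t = V.φ t y := by rw [V.uniq w hw t, hw0]
      rw [← e']
      refine hoff (w t) ?_ ⟨Φ, hΦ, by linarith⟩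
      rw [e']
      exact hWi y hy t

end

end Pool.Agent.Lib_helper68.MC
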