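import Pool.Agent.Lib_helper68.MC.F3
import Pool.Agent.Lib_helper49.MC.TB

/-! Project MC (MP_b08f5f_an, microcanonical), block F4: the final theorem for all windows, bounded
or not. -/

set_option autoImplicit false

namespace Pool.Agent.Lib_helper68.MC

open MeasureTheory Filter Topology Set
open scoped ComplexConjugate ENNReal NNReal
open Pool.Agent.Lib_helper25.PV (Conf vel Motion centre inertia NC VFlow exists_vflow)
open Pool.Agent.Lib_helper12.HE (ham rad nrm Gam sig shell turn one LimAvg)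

noncomputable section

/-- the energy window with arbitrary ends -/
def WinE (N : ℕ) (a b : EReal) : Set (Conf N) :=
  {y | y ∈ Gam N ∧ a ≤ ((ham y / (N : ℝ) ^ 2 : ℝ) : EReal) ∧
    ((ham y / (N : ℝ) ^ 2 : ℝ) : EReal) ≤ b}

/-- what is shown for a datum outside of the exceptional set -/
def Good (N : ℕ) (ρ : ℂ → ℝ) (ε c : ℝ) (y : Conf N) : Prop :=
  ∀ w : ℝ → Conf N, Motion w → w 0 = y →
    (∀ Ψ : Conf N → ℝ, Continuous Ψ → ∃ l, LimAvg w Ψ l) ∧
    (∀ Φ : ℂ → ℝ, LipschitzWith 1 Φ → ∀ l : ℝ, LimAvg w (one N Φ) l →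
      |l - ∫ x, Φ x * ρ x| ≤ ε) ∧
    (∃ l ≤ Real.exp (-(c * N)), LimAvg w ({y : Conf N | Off ρ ε y}.indicator fun _ => 1) l) ∧
    ∀ t, |t| ≤ Real.exp (c * N) → ¬ Off ρ ε (w t)

theorem F4_good_mono {N : ℕ} {ρ : ℂ → ℝ} {ε c c' : ℝ} (h : c' ≤ c) {y : Conf N}
    (hy : Good N ρ ε c y) : Good N ρ ε c' y := by
  intro w hw hw0
  obtain ⟨g1, g2, ⟨l, hl, g3⟩, g4⟩ := hy w hw hw0
  have hN : (0 : ℝ) ≤ N := Nat.cast_nonneg N
  have h1 : c' * N ≤ c * N := mul_le_mul_of_nonneg_right h hN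
  exact ⟨g1, g2, ⟨l, hl.trans (Real.exp_le_exp.2 (by linarith)), g3⟩,
    fun t ht => g4 t (ht.trans (Real.exp_le_exp.2 h1))⟩

/-- the windows `[a, ∞)` -/
theorem F4_top {a : ℝ} {ρ : ℂ → ℝ} (h : Eqm (max a (En gau gau)) ρ) {ε : ℝ} (hε : 0 < ε) :
    ∃ c > 0, ∃ N₀ : ℕ, ∀ N ≥ N₀,
      0 < sig N {y | y ∈ Gam N ∧ a ≤ ham y / (N : ℝ) ^ 2} ∧
      ∃ Bad ⊆ {y | y ∈ Gam N ∧ a ≤ ham y / (N : ℝ) ^ 2},
      sig N Bad ≤ ENNReal.ofReal (Real.exp (-(c * N))) *
        sig N {y | y ∈ Gam N ∧ a ≤ ham y / (N : ℝ) ^ 2} ∧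
      ∀ y ∈ {y | y ∈ Gam N ∧ a ≤ ham y / (N : ℝ) ^ 2}, y ∉ Bad → Good N ρ ε c y := by
  -- a competitor in a bounded window
  set b₁ : ℝ := max (max a (En gau gau)) e0 + 1 with hb₁
  have hab₁ : a < b₁ := by
    have := le_max_left (max a (En gau gau)) e0
    have := le_max_left a (En gau gau)
    linarith
  have heb₁ : e0 < b₁ := by
    have := le_max_right (max a (En gau gau)) e0
    linarith
  have hgb₁ : En gau gau < b₁ := by
    have := le_max_left (max a (En gau gau)) e0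
    have := le_max_right a (En gau gau)
    linarith
  obtain ⟨ρ₁, g1, g2, g3, g4, g5⟩ := VM_some hab₁ heb₁
  obtain ⟨b₀, hb₀⟩ := TB_main (-(Sent ρ₁ - 1) + 1)
  set b : ℝ := max b₁ b₀ with hb
  have hb₁b : b₁ ≤ b := le_max_left _ _
  have hb₀b : b₀ ≤ b := le_max_right _ _
  have hab : a < b := lt_of_lt_of_le hab₁ hb₁b
  have hgb : En gau gau < b := lt_of_lt_of_le hgb₁ hb₁b
  have he : max a (min b (En gau gau)) = max a (En gau gau) := by
    rw [min_eq_right hgb.le]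
  obtain ⟨c₁, hc₁, N₁, h₁⟩ := F3_main hab (lt_of_lt_of_le heb₁ hb₁b) (ρ := ρ)
    (by rw [he]; exact h) hε
  -- the tail
  have htail : ∀ᶠ N : ℕ in atTop, sig N {y | y ∈ Gam N ∧ b < ham y / (N : ℝ) ^ 2} ≤
      ENNReal.ofReal (Real.exp (-(N : ℝ))) * sig N (Win N a b) := by
    filter_upwards [hb₀, LB_main g1 g2 g3 g4 g5 one_pos one_pos, eventually_ge_atTop 2]
      with N t1 t2 t3
    obtain ⟨κ, k0, kt, hk⟩ := SR_region N t3 1 one_pos
    have e1 : κ * sig N {y | y ∈ Gam N ∧ b < ham y / (N : ℝ) ^ 2} ≤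
        ENNReal.ofReal (Real.exp (-((-(Sent ρ₁ - 1) + 1) * N))) := by
      rw [← hk]
      refine le_trans (measure_mono ?_) t1
      rintro z ⟨h1, h2, h3⟩
      exact ⟨h1, h2, hb₀b.trans h3.le⟩
    have e2 : ENNReal.ofReal (Real.exp (N * (Sent ρ₁ - 1))) ≤ κ * sig N (Win N a b) := by
      rw [← hk]
      refine le_trans t2 (measure_mono ?_)
      rintro z ⟨h1, h2⟩
      exact ⟨h1, S2_win_mono le_rfl hb₁b h2⟩
    refine (ENNReal.mul_le_mul_iff_right k0 kt).1 ?_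
    calc κ * sig N {y | y ∈ Gam N ∧ b < ham y / (N : ℝ) ^ 2} ≤
          ENNReal.ofReal (Real.exp (-((-(Sent ρ₁ - 1) + 1) * N))) := e1
      _ = ENNReal.ofReal (Real.exp (-(N : ℝ))) *
          ENNReal.ofReal (Real.exp (N * (Sent ρ₁ - 1))) := by
        rw [← ENNReal.ofReal_mul (Real.exp_pos _).le, ← Real.exp_add]
        congr 2
        ring
      _ ≤ ENNReal.ofReal (Real.exp (-(N : ℝ))) * (κ * sig N (Win N a b)) := by gcongr
      _ = κ * (ENNReal.ofReal (Real.exp (-(N : ℝ))) * sig N (Win N a b)) := by ring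
  set c : ℝ := min c₁ 1 / 2 with hc
  have hc0 : 0 < c := by positivity
  have hcc₁ : 2 * c ≤ c₁ := by
    have := min_le_left c₁ 1
    linarith
  have hcc₂ : 2 * c ≤ 1 := by
    have := min_le_right c₁ 1
    linarith
  obtain ⟨N₂, hN₂⟩ := eventually_atTop.1 (htail.and (FN_small hc0 (by norm_num : (0 : ℝ) < 1 / 2)))
  refine ⟨c, hc0, max N₁ N₂, fun N hN => ?_⟩
  obtain ⟨hpos, B, hB, hBs, hBg⟩ := h₁ N (le_trans (le_max_left _ _) hN)
  obtain ⟨ht, hs⟩ := hN₂ N (le_trans (le_max_right _ _) hN)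
  have hsub : Win N a b ⊆ {y | y ∈ Gam N ∧ a ≤ ham y / (N : ℝ) ^ 2} := fun y hy =>
    ⟨hy.1, hy.2.1⟩
  have hN0 : (0 : ℝ) ≤ N := Nat.cast_nonneg N
  refine ⟨lt_of_lt_of_le hpos (F3_sig_mono hsub),
    B ∪ {y | y ∈ Gam N ∧ b < ham y / (N : ℝ) ^ 2}, ?_, ?_, ?_⟩
  · refine union_subset (hB.trans hsub) fun y hy => ⟨hy.1, ?_⟩
    exact hab.le.trans hy.2.le
  · have h3 : sig N (B ∪ {y | y ∈ Gam N ∧ b < ham y / (N : ℝ) ^ 2}) ≤
        ENNReal.ofReal (Real.exp (-(c * N))) * sig N (Win N a b) := by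
      refine FN_union hBs ht (Real.exp_pos _).le (Real.exp_pos _).le ?_
      have e3 : Real.exp (-(c₁ * N)) ≤ Real.exp (-(c * N)) * Real.exp (-(c * N)) := by
        rw [← Real.exp_add]
        apply Real.exp_le_exp.2
        nlinarith
      have e4 : Real.exp (-(N : ℝ)) ≤ Real.exp (-(c * N)) * Real.exp (-(c * N)) := by
        rw [← Real.exp_add]
        apply Real.exp_le_exp.2
        nlinarith
      nlinarith [Real.exp_pos (-(c * (N : ℝ)))]
    refine h3.trans ?_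
    gcongr
    exact F3_sig_mono hsub
  · intro y hy hyB
    have hy1 : y ∈ Win N a b := by
      refine ⟨hy.1, hy.2, ?_⟩
      by_contra hcon
      exact hyB (Or.inr ⟨hy.1, not_le.1 hcon⟩)
    have hy2 : y ∉ B := fun hh => hyB (Or.inl hh)
    exact F4_good_mono (by linarith : c ≤ c₁) fun w hw hw0 => hBg y hy1 hy2 w hw hw0

theorem F4_main {a b : EReal} (hab : a < b) (hb : (e0 : EReal) < b) {e : ℝ}
    (he : (e : EReal) = max a (min b (En gau gau : ℝ))) {ρ : ℂ → ℝ} (h : Eqm e ρ) {ε : ℝ}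
    (hε : 0 < ε) :
    ∃ c > 0, ∃ N₀ : ℕ, ∀ N ≥ N₀, 0 < sig N (WinE N a b) ∧ ∃ Bad ⊆ WinE N a b,
      sig N Bad ≤ ENNReal.ofReal (Real.exp (-(c * N))) * sig N (WinE N a b) ∧
      ∀ y ∈ WinE N a b, y ∉ Bad → Good N ρ ε c y := by
  -- a real lower end
  obtain ⟨a', ha'e, hab'', ha'⟩ : ∃ a' : ℝ, max (a' : EReal) (min b (En gau gau : ℝ)) = e ∧
      (a' : EReal) < b ∧ ∀ N : ℕ, 1 ≤ N → ∀ y : Conf N, y ∈ Gam N →
        (a ≤ ((ham y / (N : ℝ) ^ 2 : ℝ) : EReal) ↔ a' ≤ ham y / (N : ℝ) ^ 2) := by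
    induction a using EReal.rec with
    | bot =>
      rw [max_eq_right bot_le] at he
      have h1 : ((min (-1) (e - 1) : ℝ) : EReal) < (e : EReal) :=
        EReal.coe_lt_coe_iff.2 (lt_of_le_of_lt (min_le_right _ _) (by linarith))
      refine ⟨min (-1) (e - 1), ?_, ?_, fun N hN y hy => ?_⟩
      · rw [← he]
        exact max_eq_right h1.le
      · refine lt_of_lt_of_le h1 ?_
        rw [he]
        exact min_le_left _ _
      · simp only [bot_le, true_iff]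
        exact (min_le_left _ _).trans (HL_main hN hy)
    | coe a => exact ⟨a, he.symm, hab, fun N hN y hy => EReal.coe_le_coe_iff⟩
    | top => exact absurd hab (not_lt.2 le_top)
  induction b using EReal.rec with
  | bot => exact absurd hb (not_lt.2 bot_le)
  | coe b =>
    have hb' : e0 < b := EReal.coe_lt_coe_iff.1 hb
    have hee : max a' (min b (En gau gau)) = e := by
      have h1 : ((max a' (min b (En gau gau)) : ℝ) : EReal) = e := by
        rw [← ha'e, EReal.coe_strictMono.monotone.map_max, EReal.coe_strictMono.monotone.map_min]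
      exact EReal.coe_eq_coe_iff.1 h1
    have hab' : a' < b := EReal.coe_lt_coe_iff.1 hab''
    obtain ⟨c, hc, N₀, h₁⟩ := F3_main hab' hb' (ρ := ρ) (by rw [hee]; exact h) hε
    refine ⟨c, hc, max N₀ 1, fun N hN => ?_⟩
    have hN1 : 1 ≤ N := le_trans (le_max_right _ _) hN
    have hW : WinE N a b = Win N a' b := by
      ext y
      constructor
      · rintro ⟨h1, h2, h3⟩
        exact ⟨h1, (ha' N hN1 y h1).1 h2, EReal.coe_le_coe_iff.1 h3⟩
      · rintro ⟨h1, h2, h3⟩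
        exact ⟨h1, (ha' N hN1 y h1).2 h2, EReal.coe_le_coe_iff.2 h3⟩
    rw [hW]
    exact h₁ N (le_trans (le_max_left _ _) hN)
  | top =>
    have hee : max a' (En gau gau) = e := by
      rw [min_eq_right le_top] at ha'e
      have h1 : ((max a' (En gau gau) : ℝ) : EReal) = e := by
        rw [← ha'e, EReal.coe_strictMono.monotone.map_max]
      exact EReal.coe_eq_coe_iff.1 h1
    obtain ⟨c, hc, N₀, h₁⟩ := F4_top (a := a') (ρ := ρ) (by rw [hee]; exact h) hε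
    refine ⟨c, hc, max N₀ 1, fun N hN => ?_⟩
    have hN1 : 1 ≤ N := le_trans (le_max_right _ _) hN
    have hW : WinE N a ⊤ = {y | y ∈ Gam N ∧ a' ≤ ham y / (N : ℝ) ^ 2} := by
      ext y
      constructor
      · rintro ⟨h1, h2, h3⟩
        exact ⟨h1, (ha' N hN1 y h1).1 h2⟩
      · rintro ⟨h1, h2⟩
        exact ⟨h1, (ha' N hN1 y h1).2 h2, le_top⟩
    rw [hW]
    exact h₁ N (le_trans (le_max_left _ _) hN)

end

end Pool.Agent.Lib_helper68.MC
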