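import Pool.Agent.Lib_helper68.MC.F4
import Pool.Agent.Lib_helper25.MC.ID
import Pool.Agent.Lib_helper49.MC.WI

/-! Project MC (MP_b08f5f_an, microcanonical), block FE: the equilibrium density of a window. -/

set_option autoImplicit false

namespace Pool.Agent.Lib_helper68.MC

open MeasureTheory Filter Topology Set
open scoped ComplexConjugate ENNReal NNReal

noncomputable section

theorem FE_gau : Eqm (En gau gau) gau := by
  obtain ⟨gd, gm, gc, -⟩ := GA_dens
  refine ⟨gd, gm, gc, rfl, fun α hα x => ?_, fun ρ' h1 h2 h3 h4 => ?_⟩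
  · simp [gau, hα]
  · have h5 := GA_max h1 h2 h4
    have h6 : 0 ≤ 8 * Real.pi * (En gau gau - En ρ' ρ') :=
      mul_nonneg (by positivity) (by linarith)
    linarith

/-- the energy of the equilibrium density of the window, and the density -/
theorem FE_ex {a b : EReal} (hab : a < b) (hb : (e0 : EReal) < b) (hg : e0 ≤ En gau gau) :
    ∃ (e : ℝ) (ρ : ℂ → ℝ), (e : EReal) = max a (min b (En gau gau : ℝ)) ∧ Eqm e ρ ∧
      (a ≤ (En gau gau : ℝ) → ((En gau gau : ℝ) : EReal) ≤ b → ρ = gau) := by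
  rcases le_or_gt a (En gau gau : ℝ) with h1 | h1
  · rcases le_or_gt ((En gau gau : ℝ) : EReal) b with h2 | h2
    · exact ⟨En gau gau, gau, by rw [min_eq_right h2, max_eq_right h1], FE_gau, fun _ _ => rfl⟩
    · induction b using EReal.rec with
      | bot => exact absurd hb (not_lt.2 bot_le)
      | coe b =>
        obtain ⟨ρ, hρ⟩ := ID_main (EReal.coe_lt_coe_iff.1 hb)
        exact ⟨b, ρ, by rw [min_eq_left h2.le, max_eq_right hab.le], hρ,
          fun _ h => absurd h2 (not_lt.2 h)⟩
      | top => exact absurd h2 (not_lt.2 le_top)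
  · induction a using EReal.rec with
    | bot => exact absurd h1 (not_lt.2 bot_le)
    | coe a =>
      have h3 : En gau gau < a := EReal.coe_lt_coe_iff.1 h1
      obtain ⟨ρ, hρ⟩ := ID_main (lt_of_le_of_lt hg h3)
      exact ⟨a, ρ, by rw [max_eq_left ((min_le_right _ _).trans h1.le)], hρ,
        fun h _ => absurd h1 (not_lt.2 h)⟩
    | top => exact absurd hab (not_lt.2 le_top)

/-- it has the largest entropy in the window -/
theorem FE_largest {a b : EReal} (hab : a < b) {e : ℝ}
    (he : (e : EReal) = max a (min b (En gau gau : ℝ))) {ρ : ℂ → ℝ} (h : Eqm e ρ)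
    {σ : ℂ → ℝ} (hσ : Dens σ) (hm : mo σ ≤ 1) (ha : a ≤ (En σ σ : ℝ))
    (hb : ((En σ σ : ℝ) : EReal) ≤ b) (hne : ¬ σ =ᵐ[volume] ρ) : Sent σ < Sent ρ := by
  by_cases hE : En σ σ = e
  · exact WI_unique h hσ hm hE hne
  · refine WI_cross h hσ hm hE ?_
    rw [mem_uIcc]
    rcases le_or_gt a (En gau gau : ℝ) with h1 | h1
    · rcases le_or_gt ((En gau gau : ℝ) : EReal) b with h2 | h2
      · rw [min_eq_right h2, max_eq_right h1] at he
        have he' := EReal.coe_eq_coe_iff.1 he
        rw [he']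
        rcases le_total (En σ σ) (En gau gau) with h3 | h3
        · exact Or.inl ⟨h3, le_rfl⟩
        · exact Or.inr ⟨le_rfl, h3⟩
      · rw [min_eq_left h2.le, max_eq_right hab.le] at he
        rw [← he] at h2 hb
        exact Or.inl ⟨EReal.coe_le_coe_iff.1 hb, (EReal.coe_lt_coe_iff.1 h2).le⟩
    · rw [max_eq_left ((min_le_right _ _).trans h1.le)] at he
      rw [← he] at h1 ha
      exact Or.inr ⟨(EReal.coe_lt_coe_iff.1 h1).le, EReal.coe_le_coe_iff.1 ha⟩

end

end Pool.Agent.Lib_helper68.MC
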