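import Pool.Agent.Lib_helper68.MC.DefsD
import Pool.Agent.Lib_helper68.MC.ST

/-! Project MC (MP_b08f5f_an, microcanonical), block S2: the static theorem with the limit
identified. -/

set_option autoImplicit false

namespace Pool.Agent.Lib_helper68.MC

open MeasureTheory Filter Topology Set
open scoped ComplexConjugate ENNReal NNReal
open Pool.Agent.Lib_helper25.PV (Conf vel Motion centre inertia NC VFlow)
open Pool.Agent.Lib_helper12.HE (ham rad nrm Gam sig shell turn one LimAvg)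

noncomputable section

/-- the quotient of an upper and a lower bound, with the constant -/
theorem S2_ratio {a b : ℝ} {ρ : ℂ → ℝ} (h : Dens ρ) (hm : mo ρ = 1) (hc : mean ρ = 0)
    (ha : a < En ρ ρ) (hb : En ρ ρ < b) {σ : ℝ} (hσ : σ < Sent ρ)
    {U : Set (ProbabilityMeasure ℂ)} {η : ℝ} (hη : 0 < η)
    (hU : ∀ᶠ N : ℕ in atTop,
      volume {z : Conf N | z ∈ Reg N η ∧ nrm z ∈ Win N a b ∧ emp (nrm z) ∈ U} ≤
        ENNReal.ofReal (Real.exp (N * σ))) :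
    ∀ᶠ N : ℕ in atTop, sig N {y | y ∈ Win N a b ∧ emp y ∈ U} ≤
      ENNReal.ofReal (Real.exp (-((Sent ρ - σ) / 2 * N))) * sig N (Win N a b) := by
  have hd : 0 < (Sent ρ - σ) / 2 := by linarith
  filter_upwards [hU, LB_main h hm hc ha hb hη hd, eventually_ge_atTop 2] with N h1 h2 h3
  obtain ⟨κ, k0, kt, hk⟩ := SR_region N h3 η hη
  have e1 : volume {z : Conf N | z ∈ Reg N η ∧ nrm z ∈ Win N a b ∧ emp (nrm z) ∈ U} =
      κ * sig N {y | y ∈ Win N a b ∧ emp y ∈ U} := hk {y | y ∈ Win N a b ∧ emp y ∈ U}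
  rw [e1] at h1
  rw [hk] at h2
  have h4 : κ * sig N {y | y ∈ Win N a b ∧ emp y ∈ U} ≤
      κ * (ENNReal.ofReal (Real.exp (-((Sent ρ - σ) / 2 * N))) * sig N (Win N a b)) := by
    calc κ * sig N {y | y ∈ Win N a b ∧ emp y ∈ U} ≤ ENNReal.ofReal (Real.exp (N * σ)) := h1
      _ = ENNReal.ofReal (Real.exp (-((Sent ρ - σ) / 2 * N))) *
          ENNReal.ofReal (Real.exp (N * (Sent ρ - (Sent ρ - σ) / 2))) := by
        rw [← ENNReal.ofReal_mul (Real.exp_pos _).le, ← Real.exp_add]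
        congr 2
        ring
      _ ≤ ENNReal.ofReal (Real.exp (-((Sent ρ - σ) / 2 * N))) * (κ * sig N (Win N a b)) := by
        gcongr
      _ = κ * (ENNReal.ofReal (Real.exp (-((Sent ρ - σ) / 2 * N))) * sig N (Win N a b)) := by
        ring
  exact (ENNReal.mul_le_mul_iff_right k0 kt).1 h4

theorem S2_win_mono {N : ℕ} {a a' b b' : ℝ} (ha : a' ≤ a) (hb : b ≤ b') :
    Win N a b ⊆ Win N a' b' := fun _ hy => ⟨hy.1, ha.trans hy.2.1, hy.2.2.trans hb⟩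

/-- the local estimate near a measure different from the equilibrium -/
theorem S2_local {e : ℝ} {ρ : ℂ → ℝ} (hρ : Eqm e ρ) {μ : ProbabilityMeasure ℂ} (hμ : μ ∈ KK)
    (hne : (μ : Measure ℂ) ≠ wd ρ) :
    ∃ U : Set (ProbabilityMeasure ℂ), IsOpen U ∧ μ ∈ U ∧ ∃ h₀ > 0, ∃ c > 0, ∀ δ : ℝ, 0 < δ →
      δ ≤ h₀ → ∀ᶠ N : ℕ in atTop,
      sig N {y | y ∈ Win N (e - δ) (e + δ) ∧ emp y ∈ U} ≤
        ENNReal.ofReal (Real.exp (-(c * N))) * sig N (Win N (e - δ) (e + δ)) := by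
  have hpi := Real.pi_pos
  obtain ⟨h₀, hh₀, σ, hσ, key⟩ : ∃ h₀ > 0, ∃ σ < Sent ρ,
      (∃ ρ', Dens ρ' ∧ (μ : Measure ℂ) = wd ρ' ∧
        (En ρ' ρ' ≤ e + h₀ → Sent ρ' - 8 * Real.pi * max (e - h₀ - En ρ' ρ') 0 < σ)) ∨
      ¬ ∃ ρ', Dens ρ' ∧ (μ : Measure ℂ) = wd ρ' := by
    by_cases hd : ∃ ρ', Dens ρ' ∧ (μ : Measure ℂ) = wd ρ'
    · obtain ⟨ρ', h', e'⟩ := hd
      have hm' : mo ρ' ≤ 1 := WD_mo h' (by rw [← e']; exact hμ)
      by_cases hE : En ρ' ρ' ≤ e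
      · have hne' : ¬ ρ' =ᵐ[volume] ρ := by
          intro hh
          apply hne
          rw [e']
          unfold wd
          refine withDensity_congr_ae ?_
          filter_upwards [hh] with x hx
          rw [hx]
        have hb := hρ.best ρ' h' hm' hE hne'
        set g : ℝ := Sent ρ - (Sent ρ' - 8 * Real.pi * (e - En ρ' ρ')) with hg
        have hg0 : 0 < g := by rw [hg]; linarith
        refine ⟨g / (32 * Real.pi), by positivity, Sent ρ - g / 2, by linarith,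
          Or.inl ⟨ρ', h', e', fun _ => ?_⟩⟩
        have h1 : e - g / (32 * Real.pi) - En ρ' ρ' ≤
            max (e - g / (32 * Real.pi) - En ρ' ρ') 0 := le_max_left _ _
        have h2 : 8 * Real.pi * (e - g / (32 * Real.pi) - En ρ' ρ') ≤
            8 * Real.pi * max (e - g / (32 * Real.pi) - En ρ' ρ') 0 :=
          mul_le_mul_of_nonneg_left h1 (by positivity)
        have h3 : 8 * Real.pi * (e - g / (32 * Real.pi) - En ρ' ρ') =
            8 * Real.pi * (e - En ρ' ρ') - g / 4 := by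
          field_simp
          ring
        linarith
      · refine ⟨(En ρ' ρ' - e) / 2, by linarith [not_le.1 hE], Sent ρ - 1, by linarith,
          Or.inl ⟨ρ', h', e', fun hh => ?_⟩⟩
        exfalso
        linarith [not_le.1 hE]
    · exact ⟨1, one_pos, Sent ρ - 1, by linarith, Or.inr hd⟩
  obtain ⟨U, hU, hμU, η, hη, hU'⟩ := UL_main hμ key
  refine ⟨U, hU, hμU, h₀, hh₀, (Sent ρ - σ) / 2, by linarith, fun δ hδ hδ' => ?_⟩
  refine S2_ratio hρ.dens hρ.mo_eq hρ.mean_eq ?_ ?_ hσ hη ?_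
  · rw [hρ.en_eq]
    linarith
  · rw [hρ.en_eq]
    linarith
  · filter_upwards [hU'] with N hN
    refine le_trans (measure_mono ?_) hN
    rintro z ⟨h1, h2, h3⟩
    exact ⟨h1, S2_win_mono (by linarith) (by linarith) h2, h3⟩

/-- the measures that the test functions distinguish from `ρ` -/
def S2_C (ρ : ℂ → ℝ) (F : Finset (ℂ → ℝ)) (ε : ℝ) : Set (ProbabilityMeasure ℂ) :=
  {μ | μ ∈ KK ∧ ∃ Φ ∈ F, ε ≤ |(∫ x, Φ x ∂(μ : Measure ℂ)) - ∫ x, Φ x * ρ x|}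

theorem S2_compact (ρ : ℂ → ℝ) {F : Finset (ℂ → ℝ)}
    (hF : ∀ Φ ∈ F, Continuous Φ ∧ ∃ C, ∀ x, |Φ x| ≤ C) (ε : ℝ) : IsCompact (S2_C ρ F ε) := by
  have : S2_C ρ F ε = KK ∩ ⋃ Φ ∈ F, {μ : ProbabilityMeasure ℂ |
      ε ≤ |(∫ x, Φ x ∂(μ : Measure ℂ)) - ∫ x, Φ x * ρ x|} := by
    ext μ
    simp [S2_C]
  rw [this]
  refine TO_compact.inter_right ?_
  refine Set.Finite.isClosed_biUnion F.finite_toSet ?_
  intro Φ hΦ
  obtain ⟨h1, C, hC⟩ := hF Φ hΦ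
  exact isClosed_le continuous_const (Continuous.abs (Continuous.sub (ST_cont h1 ⟨C, hC⟩)
    continuous_const))

theorem S2_net {e : ℝ} {ρ : ℂ → ℝ} (h : Eqm e ρ) {F : Finset (ℂ → ℝ)}
    (hF : ∀ Φ ∈ F, Continuous Φ ∧ ∃ C, ∀ x, |Φ x| ≤ C) {ε : ℝ} (hε : 0 < ε) :
    ∃ h₀ > 0, ∃ c > 0, ∀ δ : ℝ, 0 < δ → δ ≤ h₀ → ∀ᶠ N : ℕ in atTop,
      sig N (Win N (e - δ) (e + δ)) ≠ 0 ∧
      sig N {y | y ∈ Win N (e - δ) (e + δ) ∧ ∃ Φ ∈ F, ε ≤ |one N Φ y - ∫ x, Φ x * ρ x|} ≤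
        ENNReal.ofReal (Real.exp (-(c * N))) * sig N (Win N (e - δ) (e + δ)) := by
  have hloc : ∀ μ ∈ S2_C ρ F ε, ∃ U : Set (ProbabilityMeasure ℂ), IsOpen U ∧ μ ∈ U ∧
      ∃ h₀ > 0, ∃ c > 0, ∀ δ : ℝ, 0 < δ → δ ≤ h₀ → ∀ᶠ N : ℕ in atTop,
      sig N {y | y ∈ Win N (e - δ) (e + δ) ∧ emp y ∈ U} ≤
        ENNReal.ofReal (Real.exp (-(c * N))) * sig N (Win N (e - δ) (e + δ)) := by
    rintro μ ⟨hμ, Φ, hΦ, hΦ'⟩
    refine S2_local h hμ ?_
    intro hh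
    rw [hh, WD_integral h.dens, sub_self, abs_zero] at hΦ'
    linarith
  choose! U hUo hμU hh hh0 c hc hUc using hloc
  obtain ⟨t, hcov⟩ := (S2_compact ρ hF ε).elim_nhds_subcover' (fun μ _ => U μ)
    (fun μ hμ => (hUo μ hμ).mem_nhds (hμU μ hμ))
  obtain ⟨c₀, hc₀, hcle⟩ : ∃ c₀ > 0, ∀ μ ∈ t, c₀ ≤ c μ := by
    rcases t.eq_empty_or_nonempty with h | h
    · exact ⟨1, one_pos, fun μ hμ => by simp [h] at hμ⟩
    · refine ⟨t.inf' h fun μ => c μ, ?_, fun μ hμ => Finset.inf'_le _ hμ⟩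
      rw [gt_iff_lt, Finset.lt_inf'_iff]
      exact fun μ _ => hc μ μ.2
  obtain ⟨h₀, hh₀, hhle⟩ : ∃ h₀ > 0, ∀ μ ∈ t, h₀ ≤ hh μ := by
    rcases t.eq_empty_or_nonempty with h | h
    · exact ⟨1, one_pos, fun μ hμ => by simp [h] at hμ⟩
    · refine ⟨t.inf' h fun μ => hh μ, ?_, fun μ hμ => Finset.inf'_le _ hμ⟩
      rw [gt_iff_lt, Finset.lt_inf'_iff]
      exact fun μ _ => hh0 μ μ.2
  refine ⟨h₀, hh₀, c₀ / 2, by positivity, fun δ hδ hδ' => ?_⟩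
  have hall : ∀ᶠ N : ℕ in atTop, ∀ μ ∈ t,
      sig N {y | y ∈ Win N (e - δ) (e + δ) ∧ emp y ∈ U μ} ≤
        ENNReal.ofReal (Real.exp (-(c μ * N))) * sig N (Win N (e - δ) (e + δ)) := by
    rw [Filter.eventually_all_finset]
    exact fun μ hμ => hUc μ μ.2 δ hδ (hδ'.trans (hhle μ hμ))
  have hcard : ∀ᶠ N : ℕ in atTop, (t.card : ℝ) * Real.exp (-(c₀ * N)) ≤
      Real.exp (-(c₀ / 2 * N)) := by
    have h1 : Tendsto (fun N : ℕ => Real.exp (c₀ / 2 * N)) atTop atTop :=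
      Real.tendsto_exp_atTop.comp (tendsto_natCast_atTop_atTop.const_mul_atTop (by positivity))
    filter_upwards [h1.eventually_ge_atTop (t.card : ℝ)] with N hN
    calc (t.card : ℝ) * Real.exp (-(c₀ * N)) ≤
        Real.exp (c₀ / 2 * N) * Real.exp (-(c₀ * N)) := by gcongr
      _ = Real.exp (-(c₀ / 2 * N)) := by rw [← Real.exp_add]; congr 1; ring
  have hpos : ∀ᶠ N : ℕ in atTop, sig N (Win N (e - δ) (e + δ)) ≠ 0 := by
    filter_upwards [LB_main h.dens h.mo_eq h.mean_eq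
      (by rw [h.en_eq]; linarith : e - δ < En ρ ρ) (by rw [h.en_eq]; linarith : En ρ ρ < e + δ)
      one_pos one_pos, eventually_ge_atTop 2] with N h2 h3
    obtain ⟨κ, k0, kt, hk⟩ := SR_region N h3 1 one_pos
    rw [hk] at h2
    intro h
    rw [h, mul_zero, nonpos_iff_eq_zero, ENNReal.ofReal_eq_zero] at h2
    exact absurd (Real.exp_pos _) (not_lt.2 h2)
  filter_upwards [hall, hcard, hpos, eventually_ge_atTop 1] with N h1 h2 h3 hN
  refine ⟨h3, ?_⟩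
  have hsub : {y : Conf N | y ∈ Win N (e - δ) (e + δ) ∧
      ∃ Φ ∈ F, ε ≤ |one N Φ y - ∫ x, Φ x * ρ x|} ⊆
      ⋃ μ ∈ t, {y | y ∈ Win N (e - δ) (e + δ) ∧ emp y ∈ U μ} := by
    rintro y ⟨hy, Φ, hΦ, hpy⟩
    have hC : emp y ∈ S2_C ρ F ε := by
      refine ⟨TO_emp hN hy.1, Φ, hΦ, ?_⟩
      rw [TO_integral hN y Φ]
      exact hpy
    obtain ⟨μ, hμ, hyμ⟩ := mem_iUnion₂.1 (hcov hC)
    exact mem_iUnion₂.2 ⟨μ, hμ, hy, hyμ⟩
  have hmono : sig N {y : Conf N | y ∈ Win N (e - δ) (e + δ) ∧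
      ∃ Φ ∈ F, ε ≤ |one N Φ y - ∫ x, Φ x * ρ x|} ≤
      ∑ μ ∈ t, sig N {y | y ∈ Win N (e - δ) (e + δ) ∧ emp y ∈ U μ} := by
    unfold sig
    refine le_trans (measure_mono ?_) (measure_biUnion_finset_le t _)
    rintro z ⟨hz, hz'⟩
    obtain ⟨μ, hμ, hyμ⟩ := mem_iUnion₂.1 (hsub hz')
    exact mem_iUnion₂.2 ⟨μ, hμ, hz, hyμ⟩
  calc sig N {y : Conf N | y ∈ Win N (e - δ) (e + δ) ∧
      ∃ Φ ∈ F, ε ≤ |one N Φ y - ∫ x, Φ x * ρ x|} ≤
      ∑ μ ∈ t, sig N {y | y ∈ Win N (e - δ) (e + δ) ∧ emp y ∈ U μ} := hmono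
    _ ≤ ∑ μ ∈ t, ENNReal.ofReal (Real.exp (-(c₀ * N))) * sig N (Win N (e - δ) (e + δ)) := by
        refine Finset.sum_le_sum fun μ hμ => (h1 μ hμ).trans ?_
        gcongr
        exact hcle μ hμ
    _ = ENNReal.ofReal (t.card * Real.exp (-(c₀ * N))) * sig N (Win N (e - δ) (e + δ)) := by
        rw [Finset.sum_const, nsmul_eq_mul, ENNReal.ofReal_mul (by positivity),
          ENNReal.ofReal_natCast, mul_assoc]
    _ ≤ ENNReal.ofReal (Real.exp (-(c₀ / 2 * N))) * sig N (Win N (e - δ) (e + δ)) := by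
        gcongr

end

end Pool.Agent.Lib_helper68.MC
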