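import Pool.Agent.Lib_helper68.MC.S2
import Pool.Agent.Lib_helper49.MC.WI

/-! Project MC (MP_b08f5f_an, microcanonical), block S3: the static theorem for all windows with
the limit identified. -/

set_option autoImplicit false

namespace Pool.Agent.Lib_helper68.MC

open MeasureTheory Filter Topology Set
open scoped ComplexConjugate ENNReal NNReal
open Pool.Agent.Lib_helper25.PV (Conf vel Motion centre inertia NC VFlow)
open Pool.Agent.Lib_helper12.HE (ham rad nrm Gam sig shell turn one LimAvg)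

noncomputable section

/-- the local estimate near a measure different from the equilibrium -/
theorem S3_local {a b : ℝ} (hab : a < b) (hb : e0 < b) {ρ : ℂ → ℝ}
    (hρ : Eqm (max a (min b (En gau gau))) ρ) {μ : ProbabilityMeasure ℂ} (hμ : μ ∈ KK)
    (hne : (μ : Measure ℂ) ≠ wd ρ) :
    ∃ U : Set (ProbabilityMeasure ℂ), IsOpen U ∧ μ ∈ U ∧ ∃ c > 0, ∀ᶠ N : ℕ in atTop,
      sig N {y | y ∈ Win N a b ∧ emp y ∈ U} ≤
        ENNReal.ofReal (Real.exp (-(c * N))) * sig N (Win N a b) := by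
  obtain ⟨σ, hσ, key⟩ : ∃ σ < Sent ρ,
      (∃ ρ', Dens ρ' ∧ (μ : Measure ℂ) = wd ρ' ∧
        (En ρ' ρ' ≤ b → Sent ρ' - 8 * Real.pi * max (a - En ρ' ρ') 0 < σ)) ∨
      ¬ ∃ ρ', Dens ρ' ∧ (μ : Measure ℂ) = wd ρ' := by
    by_cases hd : ∃ ρ', Dens ρ' ∧ (μ : Measure ℂ) = wd ρ'
    · obtain ⟨ρ', h', e'⟩ := hd
      have hm' : mo ρ' ≤ 1 := WD_mo h' (by rw [← e']; exact hμ)
      by_cases hE : En ρ' ρ' ≤ b
      · have hne' : ¬ ρ' =ᵐ[volume] ρ := by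
          intro hh
          apply hne
          rw [e']
          unfold wd
          refine withDensity_congr_ae ?_
          filter_upwards [hh] with x hx
          rw [hx]
        have hbest := WI_best hab hb hρ h' hm' hE hne'
        exact ⟨(Sent ρ' - 8 * Real.pi * max (a - En ρ' ρ') 0 + Sent ρ) / 2, by linarith,
          Or.inl ⟨ρ', h', e', fun _ => by linarith⟩⟩
      · exact ⟨Sent ρ - 1, by linarith, Or.inl ⟨ρ', h', e', fun hh => absurd hh hE⟩⟩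
    · exact ⟨Sent ρ - 1, by linarith, Or.inr hd⟩
  obtain ⟨U, hU, hμU, η, hη, hU'⟩ := UL_main hμ key
  obtain ⟨ρ'', g1, g2, g3, g4, g5, g6⟩ := WI_comp hab hb hρ
    (κ := (Sent ρ - σ) / 2) (by linarith)
  exact ⟨U, hU, hμU, (Sent ρ'' - σ) / 2, by linarith,
    S2_ratio g1 g2 g3 g4 g5 (by linarith) hη hU'⟩

theorem S3_net {a b : ℝ} (hab : a < b) (hb : e0 < b) {ρ : ℂ → ℝ}
    (h : Eqm (max a (min b (En gau gau))) ρ) {F : Finset (ℂ → ℝ)}
    (hF : ∀ Φ ∈ F, Continuous Φ ∧ ∃ C, ∀ x, |Φ x| ≤ C) {ε : ℝ} (hε : 0 < ε) :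
    ∃ c > 0, ∀ᶠ N : ℕ in atTop,
      sig N {y | y ∈ Win N a b ∧ ∃ Φ ∈ F, ε ≤ |one N Φ y - ∫ x, Φ x * ρ x|} ≤
        ENNReal.ofReal (Real.exp (-(c * N))) * sig N (Win N a b) := by
  have hloc : ∀ μ ∈ S2_C ρ F ε, ∃ U : Set (ProbabilityMeasure ℂ), IsOpen U ∧ μ ∈ U ∧
      ∃ c > 0, ∀ᶠ N : ℕ in atTop, sig N {y | y ∈ Win N a b ∧ emp y ∈ U} ≤
        ENNReal.ofReal (Real.exp (-(c * N))) * sig N (Win N a b) := by
    rintro μ ⟨hμ, Φ, hΦ, hΦ'⟩
    refine S3_local hab hb h hμ ?_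
    intro hh
    rw [hh, WD_integral h.dens, sub_self, abs_zero] at hΦ'
    linarith
  choose! U hUo hμU c hc hUc using hloc
  obtain ⟨t, hcov⟩ := (S2_compact ρ hF ε).elim_nhds_subcover' (fun μ _ => U μ)
    (fun μ hμ => (hUo μ hμ).mem_nhds (hμU μ hμ))
  obtain ⟨c₀, hc₀, hcle⟩ : ∃ c₀ > 0, ∀ μ ∈ t, c₀ ≤ c μ := by
    rcases t.eq_empty_or_nonempty with h | h
    · exact ⟨1, one_pos, fun μ hμ => by simp [h] at hμ⟩
    · refine ⟨t.inf' h fun μ => c μ, ?_, fun μ hμ => Finset.inf'_le _ hμ⟩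
      rw [gt_iff_lt, Finset.lt_inf'_iff]
      exact fun μ _ => hc μ μ.2
  refine ⟨c₀ / 2, by positivity, ?_⟩
  have hall : ∀ᶠ N : ℕ in atTop, ∀ μ ∈ t, sig N {y | y ∈ Win N a b ∧ emp y ∈ U μ} ≤
        ENNReal.ofReal (Real.exp (-(c μ * N))) * sig N (Win N a b) := by
    rw [Filter.eventually_all_finset]
    exact fun μ hμ => hUc μ μ.2
  have hcard : ∀ᶠ N : ℕ in atTop, (t.card : ℝ) * Real.exp (-(c₀ * N)) ≤
      Real.exp (-(c₀ / 2 * N)) := by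
    have h1 : Tendsto (fun N : ℕ => Real.exp (c₀ / 2 * N)) atTop atTop :=
      Real.tendsto_exp_atTop.comp (tendsto_natCast_atTop_atTop.const_mul_atTop (by positivity))
    filter_upwards [h1.eventually_ge_atTop (t.card : ℝ)] with N hN
    calc (t.card : ℝ) * Real.exp (-(c₀ * N)) ≤
        Real.exp (c₀ / 2 * N) * Real.exp (-(c₀ * N)) := by gcongr
      _ = Real.exp (-(c₀ / 2 * N)) := by rw [← Real.exp_add]; congr 1; ring
  filter_upwards [hall, hcard, eventually_ge_atTop 1] with N h1 h2 hN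
  have hsub : {y : Conf N | y ∈ Win N a b ∧ ∃ Φ ∈ F, ε ≤ |one N Φ y - ∫ x, Φ x * ρ x|} ⊆
      ⋃ μ ∈ t, {y | y ∈ Win N a b ∧ emp y ∈ U μ} := by
    rintro y ⟨hy, Φ, hΦ, hpy⟩
    have hC : emp y ∈ S2_C ρ F ε := by
      refine ⟨TO_emp hN hy.1, Φ, hΦ, ?_⟩
      rw [TO_integral hN y Φ]
      exact hpy
    obtain ⟨μ, hμ, hyμ⟩ := mem_iUnion₂.1 (hcov hC)
    exact mem_iUnion₂.2 ⟨μ, hμ, hy, hyμ⟩
  have hmono : sig N {y : Conf N | y ∈ Win N a b ∧
      ∃ Φ ∈ F, ε ≤ |one N Φ y - ∫ x, Φ x * ρ x|} ≤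
      ∑ μ ∈ t, sig N {y | y ∈ Win N a b ∧ emp y ∈ U μ} := by
    unfold sig
    refine le_trans (measure_mono ?_) (measure_biUnion_finset_le t _)
    rintro z ⟨hz, hz'⟩
    obtain ⟨μ, hμ, hyμ⟩ := mem_iUnion₂.1 (hsub hz')
    exact mem_iUnion₂.2 ⟨μ, hμ, hz, hyμ⟩
  calc sig N {y : Conf N | y ∈ Win N a b ∧ ∃ Φ ∈ F, ε ≤ |one N Φ y - ∫ x, Φ x * ρ x|} ≤
      ∑ μ ∈ t, sig N {y | y ∈ Win N a b ∧ emp y ∈ U μ} := hmono
    _ ≤ ∑ μ ∈ t, ENNReal.ofReal (Real.exp (-(c₀ * N))) * sig N (Win N a b) := by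
        refine Finset.sum_le_sum fun μ hμ => (h1 μ hμ).trans ?_
        gcongr
        exact hcle μ hμ
    _ = ENNReal.ofReal (t.card * Real.exp (-(c₀ * N))) * sig N (Win N a b) := by
        rw [Finset.sum_const, nsmul_eq_mul, ENNReal.ofReal_mul (by positivity),
          ENNReal.ofReal_natCast, mul_assoc]
    _ ≤ ENNReal.ofReal (Real.exp (-(c₀ / 2 * N))) * sig N (Win N a b) := by
        gcongr

end

end Pool.Agent.Lib_helper68.MC
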